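import Mathlib

set_option autoImplicit false
open Classical

namespace Pool.Agent.Helper554.Schur

/-- `g` is a product of at most `N` commutators of elements of `T`. -/
def PC {G : Type} [Group G] (T : Subgroup G) (N : ℕ) (g : G) : Prop :=
  ∃ l : List (G × G), l.length ≤ N ∧ (∀ a ∈ l, a.1 ∈ T ∧ a.2 ∈ T) ∧
    (l.map fun a => a.1 * a.2 * a.1⁻¹ * a.2⁻¹).prod = g

/-- Block unitriangular matrices `[[1,f,a],[0,π,w],[0,0,1]]` with `π` in the regular representation
of the finite group `Q` and outer blocks indexed by `ℤ`. -/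
@[ext] structure HE (Q : Type) where
  π : Q
  f : ℤ → Q → ℚ
  w : ℤ → Q → ℚ
  a : ℤ → ℤ → ℚ

namespace HE

set_option linter.unusedSectionVars false

variable {Q : Type} [Group Q] [Fintype Q]

noncomputable instance : Mul (HE Q) :=
  ⟨fun g h => ⟨g.π * h.π, fun i s => h.f i s + g.f i (h.π * s), fun j s => h.w j (g.π⁻¹ * s) + g.w j s,
    fun i j => h.a i j + (∑ s, g.f i s * h.w j s) + g.a i j⟩⟩

noncomputable instance : One (HE Q) := ⟨⟨1, fun _ _ => 0, fun _ _ => 0, fun _ _ => 0⟩⟩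

noncomputable instance : Inv (HE Q) :=
  ⟨fun g => ⟨g.π⁻¹, fun i s => - g.f i (g.π⁻¹ * s), fun j s => - g.w j (g.π * s),
    fun i j => - g.a i j + ∑ s, g.f i (g.π⁻¹ * s) * g.w j s⟩⟩

@[simp] theorem mul_π (g h : HE Q) : (g * h).π = g.π * h.π := rfl
@[simp] theorem mul_f (g h : HE Q) (i : ℤ) (s : Q) : (g * h).f i s = h.f i s + g.f i (h.π * s) := rfl
@[simp] theorem mul_w (g h : HE Q) (j : ℤ) (s : Q) : (g * h).w j s = h.w j (g.π⁻¹ * s) + g.w j s := rfl
@[simp] theorem mul_a (g h : HE Q) (i j : ℤ) :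
    (g * h).a i j = h.a i j + (∑ s, g.f i s * h.w j s) + g.a i j := rfl
@[simp] theorem one_π : (1 : HE Q).π = 1 := rfl
@[simp] theorem one_f (i : ℤ) (s : Q) : (1 : HE Q).f i s = 0 := rfl
@[simp] theorem one_w (i : ℤ) (s : Q) : (1 : HE Q).w i s = 0 := rfl
@[simp] theorem one_a (i j : ℤ) : (1 : HE Q).a i j = 0 := rfl
@[simp] theorem inv_π (g : HE Q) : (g⁻¹).π = g.π⁻¹ := rfl
@[simp] theorem inv_f (g : HE Q) (i : ℤ) (s : Q) : (g⁻¹).f i s = - g.f i (g.π⁻¹ * s) := rfl
@[simp] theorem inv_w (g : HE Q) (j : ℤ) (s : Q) : (g⁻¹).w j s = - g.w j (g.π * s) := rfl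
@[simp] theorem inv_a (g : HE Q) (i j : ℤ) :
    (g⁻¹).a i j = - g.a i j + ∑ s, g.f i (g.π⁻¹ * s) * g.w j s := rfl

noncomputable instance : Group (HE Q) where
  mul_assoc g h l := by
    apply HE.ext
    · simp [mul_assoc]
    · funext i s; simp [mul_assoc]; ring
    · funext j s; simp [mul_assoc]; ring
    · funext i j
      simp only [mul_a, mul_f, mul_w]
      have h1 : ∑ s, g.f i (h.π * s) * l.w j s = ∑ s, g.f i s * l.w j (h.π⁻¹ * s) := by
        rw [← Equiv.sum_comp (Equiv.mulLeft h.π) (fun s => g.f i s * l.w j (h.π⁻¹ * s))]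
        simp
      simp only [add_mul, mul_add, Finset.sum_add_distrib]
      rw [h1]; ring
  one_mul g := by
    apply HE.ext <;> [simp; (funext i s; simp); (funext i s; simp); (funext i j; simp)]
  mul_one g := by
    apply HE.ext <;> [simp; (funext i s; simp); (funext i s; simp); (funext i j; simp)]
  inv_mul_cancel g := by
    apply HE.ext
    · simp
    · funext i s; simp
    · funext i s; simp
    · funext i j; simp; ring

/-- The transvection at block `j`. -/
noncomputable def uj (Q : Type) [Group Q] (j : ℤ) : HE Q :=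
  ⟨1, fun i s => if i = j ∧ s = 1 then 1 else 0, fun i s => if i = j ∧ s = 1 then 1 else 0, fun _ _ => 0⟩

/-- The diagonal embedding. -/
noncomputable def dg : Q →* HE Q where
  toFun q := ⟨q, fun _ _ => 0, fun _ _ => 0, fun _ _ => 0⟩
  map_one' := rfl
  map_mul' p q := by
    apply HE.ext <;> [rfl; (funext i s; simp); (funext i s; simp); (funext i j; simp)]

/-- The diagonal embedding conjugated by the transvection at block `j`. -/
noncomputable def iota (j : ℤ) : Q →* HE Q := (MulAut.conj (uj Q j)).toMonoidHom.comp dg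

theorem iota_apply (j : ℤ) (q : Q) : iota j q = uj Q j * dg q * (uj Q j)⁻¹ := rfl

/-- `Zp q i R = ι_i(q) ι_{i+1}(q) ⋯ ι_{i+R-1}(q)`. -/
noncomputable def Zp (q : Q) : ℤ → ℕ → HE Q
  | _, 0 => 1
  | i, R + 1 => iota i q * Zp q (i + 1) R

end HE

/-- The degree homomorphism counting the generator `x`. -/
noncomputable def chi {α : Type} (x : α) : FreeGroup α →* Multiplicative ℤ :=
  FreeGroup.lift (fun a => if a = x then Multiplicative.ofAdd 1 else 1)

/-- The homomorphism `FreeGroup (Fin 2) → FreeGroup α`, `0 ↦ y`, `1 ↦ x y x⁻¹`. -/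
noncomputable def jhom {α : Type} (x y : α) : FreeGroup (Fin 2) →* FreeGroup α :=
  FreeGroup.lift ![FreeGroup.of y, FreeGroup.of x * FreeGroup.of y * (FreeGroup.of x)⁻¹]

/-- `tt X h n = ∏_{i<n} X^i h⁻¹ X^{-i}`. -/
def tt {G : Type} [Group G] (X h : G) : ℕ → G
  | 0 => 1
  | n + 1 => h⁻¹ * (X * tt X h n * X⁻¹)

/-- Sanov's representation. -/
noncomputable def rho : FreeGroup (Fin 2) →* Matrix.SpecialLinearGroup (Fin 2) ℤ :=
  FreeGroup.lift ![⟨!![1, 2; 0, 1], by simp [Matrix.det_fin_two]⟩, ⟨!![1, 0; 2, 1], by simp [Matrix.det_fin_two]⟩]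

end Pool.Agent.Helper554.Schur
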