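import Pool.Agent.Helper554.Schur.HESolv

set_option autoImplicit false
open Classical

namespace Pool.Agent.Helper554.Schur




/-- the shift automorphism of `ℤ → E` -/
def evSh (E : Type) [Group E] : MulAut (ℤ → E) where
  toFun f := fun i => f (i + 1)
  invFun f := fun i => f (i - 1)
  left_inv f := by funext i; simp
  right_inv f := by funext i; simp
  map_mul' f g := rfl

/-- the action of `ℤ` by shifts -/
noncomputable def evAct (E : Type) [Group E] : Multiplicative ℤ →* MulAut (ℤ → E) :=
  zpowersHom (MulAut (ℤ → E)) (evSh E)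

theorem evAct_one (E : Type) [Group E] (f : ℤ → E) (i : ℤ) :
    evAct E (Multiplicative.ofAdd 1) f i = f (i + 1) := by
  simp [evAct, evSh]

/-- the wreath product -/
abbrev EvW (E : Type) [Group E] : Type := (ℤ → E) ⋊[evAct E] Multiplicative ℤ

/-- the homomorphism to the wreath product -/
noncomputable def evHom {α : Type} (x y : α) {E : Type} [Group E] (φ : ℤ → E) :
    FreeGroup α →* EvW E :=
  FreeGroup.lift (fun a => if a = x then SemidirectProduct.inr (Multiplicative.ofAdd 1) else
    if a = y then SemidirectProduct.inl φ else 1)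

theorem evHom_right {α : Type} (x y : α) {E : Type} [Group E] (φ : ℤ → E) (g : FreeGroup α) :
    (evHom x y φ g).right = chi x g := by
  have h : (SemidirectProduct.rightHom : EvW E →* Multiplicative ℤ).comp (evHom x y φ) = chi x := by
    apply FreeGroup.ext_hom
    intro a
    simp only [MonoidHom.comp_apply, evHom, chi, FreeGroup.lift_apply_of]
    by_cases h1 : a = x
    · simp [h1]
    · by_cases h2 : a = y
      · rw [if_neg h1, if_pos h2, if_neg h1]
        simp
      · rw [if_neg h1, if_neg h2, if_neg h1]
        simp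
  exact DFunLike.congr_fun h g

theorem evW_solv (E : Type) [Group E] (hE : Group.IsSolvable E) : Group.IsSolvable (EvW E) := by
  have h1 : Group.IsSolvable (ℤ → E) := isSolvable_pi hE
  have h2 : Group.IsSolvable (Multiplicative ℤ) := inferInstance
  exact Group.isSolvable_of_ker_le_range (SemidirectProduct.inl : (ℤ → E) →* EvW E)
    (SemidirectProduct.rightHom : EvW E →* Multiplicative ℤ)
    (SemidirectProduct.range_inl_eq_ker_rightHom).ge

theorem exists_ev {α : Type} (x y : α) (hxy : y ≠ x) {E : Type} [Group E] (hE : Group.IsSolvable E) (φ : ℤ → E) :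
    ∃ (ev : ℤ → ((chi x).ker →* E)) (M : ℕ),
      (∀ (i : ℤ) (g g' : (chi x).ker),
        (g' : FreeGroup α) = FreeGroup.of x * (g : FreeGroup α) * (FreeGroup.of x)⁻¹ → ev i g' = ev (i + 1) g) ∧
      (∀ (i : ℤ) (g : (chi x).ker), (g : FreeGroup α) = FreeGroup.of y → ev i g = φ i) ∧
      (∀ (i : ℤ) (g : (chi x).ker), (g : FreeGroup α) ∈ derivedSeries (FreeGroup α) M → ev i g = 1) := by
  obtain ⟨M, hM⟩ := (evW_solv E hE).solvable
  have hker : ∀ g : (chi x).ker, (evHom x y φ (g : FreeGroup α)).right = 1 := by
    intro g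
    rw [evHom_right]
    exact g.2
  refine ⟨fun i => ⟨⟨fun g => (evHom x y φ (g : FreeGroup α)).left i, ?_⟩, ?_⟩, M, ?_, ?_, ?_⟩
  · simp
  · intro g h
    simp only [Subgroup.coe_mul, map_mul, SemidirectProduct.mul_left, hker g, map_one,
      MulAut.one_apply, Pi.mul_apply]
  · intro i g g' hg
    show (evHom x y φ (g' : FreeGroup α)).left i = (evHom x y φ (g : FreeGroup α)).left (i + 1)
    have hx : evHom x y φ (FreeGroup.of x) = SemidirectProduct.inr (Multiplicative.ofAdd 1) := by
      simp [evHom]
    rw [hg, map_mul, map_mul, map_inv, hx]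
    simp only [SemidirectProduct.mul_left, SemidirectProduct.left_inr, one_mul,
      SemidirectProduct.right_inr, Pi.mul_apply, evAct_one, ← map_inv, map_one, mul_one,
      Pi.one_apply]
  · intro i g hg
    show (evHom x y φ (g : FreeGroup α)).left i = φ i
    rw [hg]
    simp [evHom, hxy]
  · intro i g hg
    show (evHom x y φ (g : FreeGroup α)).left i = 1
    have h1 : evHom x y φ (g : FreeGroup α) ∈ derivedSeries (EvW E) M :=
      map_derivedSeries_le_derivedSeries (evHom x y φ) M ⟨_, hg, rfl⟩
    rw [hM, Subgroup.mem_bot] at h1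
    rw [h1]
    rfl


end Pool.Agent.Helper554.Schur
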