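import Pool.Agent.Helper554.Schur.Defs

set_option autoImplicit false
open Classical

namespace Pool.Agent.Helper554.Schur



/-- the columns of `g` lie in `U` -/
def hSinD {Q : Type} [Group Q] [Fintype Q] (U : Submodule ℚ (ℤ → ℚ)) (g : HE Q) : Prop :=
  ∀ s, (fun j => g.w j s) ∈ U

theorem hS_mul {Q : Type} [Group Q] [Fintype Q] {U : Submodule ℚ (ℤ → ℚ)} {g h : HE Q}
    (hg : hSinD U g) (hh : hSinD U h) : hSinD U (g * h) := by
  intro s
  have : (fun j => (g * h).w j s) = (fun j => h.w j (g.π⁻¹ * s)) + (fun j => g.w j s) := by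
    funext j; simp
  rw [this]
  exact U.add_mem (hh _) (hg _)

theorem hS_inv {Q : Type} [Group Q] [Fintype Q] {U : Submodule ℚ (ℤ → ℚ)} {g : HE Q}
    (hg : hSinD U g) : hSinD U g⁻¹ := by
  intro s
  have : (fun j => (g⁻¹).w j s) = -(fun j => g.w j (g.π * s)) := by
    funext j; simp
  rw [this]
  exact U.neg_mem (hg _)

theorem hS_one {Q : Type} [Group Q] [Fintype Q] {U : Submodule ℚ (ℤ → ℚ)} :
    hSinD U (1 : HE Q) := by
  intro s
  have : (fun j => (1 : HE Q).w j s) = 0 := by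
    funext j; simp
  rw [this]
  exact U.zero_mem

noncomputable def hSq {Q : Type} [Group Q] [Fintype Q] (U : Submodule ℚ (ℤ → ℚ)) (i : ℤ) (g : HE Q) :
    (ℤ → ℚ) ⧸ U := U.mkQ (fun j => g.a i j)

theorem hSq_mul {Q : Type} [Group Q] [Fintype Q] {U : Submodule ℚ (ℤ → ℚ)} {g h : HE Q} (i : ℤ)
    (hh : hSinD U h) : hSq U i (g * h) = hSq U i g + hSq U i h := by
  unfold hSq
  have h1 : (fun j => (g * h).a i j) = (fun j => g.a i j) + (fun j => h.a i j) +
      ∑ s, g.f i s • (fun j => h.w j s) := by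
    funext j
    simp only [HE.mul_a, Pi.add_apply, Finset.sum_apply, Pi.smul_apply, smul_eq_mul]
    ring
  have h2 : ∑ s, g.f i s • (fun j => h.w j s) ∈ U := U.sum_mem fun s _ => U.smul_mem _ (hh s)
  rw [h1, map_add, map_add]
  have h3 : U.mkQ (∑ s, g.f i s • (fun j => h.w j s)) = 0 := by
    rw [Submodule.mkQ_apply, Submodule.Quotient.mk_eq_zero]; exact h2
  rw [h3, add_zero]

theorem hSq_inv {Q : Type} [Group Q] [Fintype Q] {U : Submodule ℚ (ℤ → ℚ)} {g : HE Q} (i : ℤ)
    (hg : hSinD U g) : hSq U i g⁻¹ = - hSq U i g := by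
  have h1 := hSq_mul (g := g⁻¹) i hg
  rw [inv_mul_cancel] at h1
  have h2 : hSq U i (1 : HE Q) = 0 := by
    unfold hSq
    have : (fun j => (1 : HE Q).a i j) = 0 := by funext j; simp
    rw [this, map_zero]
  rw [h2] at h1
  exact eq_neg_of_add_eq_zero_left h1.symm

theorem hSq_list {Q : Type} [Group Q] [Fintype Q] {U : Submodule ℚ (ℤ → ℚ)} (i : ℤ) :
    ∀ l : List (HE Q × HE Q), (∀ a ∈ l, hSinD U a.1 ∧ hSinD U a.2) →
      hSinD U (l.map fun a => a.1 * a.2 * a.1⁻¹ * a.2⁻¹).prod ∧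
      hSq U i (l.map fun a => a.1 * a.2 * a.1⁻¹ * a.2⁻¹).prod = 0
  | [], _ => by
    refine ⟨hS_one, ?_⟩
    simp only [List.map_nil, List.prod_nil]
    unfold hSq
    have : (fun j => (1 : HE Q).a i j) = 0 := by funext j; simp
    rw [this, map_zero]
  | a :: l, h => by
    obtain ⟨h1, h2⟩ := hSq_list i l (fun b hb => h b (List.mem_cons_of_mem _ hb))
    obtain ⟨ha1, ha2⟩ := h a List.mem_cons_self
    have hc : hSinD U (a.1 * a.2 * a.1⁻¹ * a.2⁻¹) :=
      hS_mul (hS_mul (hS_mul ha1 ha2) (hS_inv ha1)) (hS_inv ha2)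
    simp only [List.map_cons, List.prod_cons]
    refine ⟨hS_mul hc h1, ?_⟩
    rw [hSq_mul i h1, h2, add_zero, hSq_mul i (hS_inv ha2), hSq_mul i (hS_inv ha1),
      hSq_mul i ha2, hSq_inv i ha1, hSq_inv i ha2]
    abel

theorem HE.rank_bound {Q : Type} [Group Q] [Fintype Q] (c : ℚ) (hc : c ≠ 0) (R N : ℕ) (Z : HE Q)
    (hZ : PC (⊤ : Subgroup (HE Q)) N Z)
    (htri : ∀ i j : ℤ, 0 ≤ j → j < i → i < R → Z.a i j = 0)
    (hdiag : ∀ i : ℤ, 0 ≤ i → i < R → Z.a i i = c) : R ≤ 2 * Fintype.card Q * N := by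
  obtain ⟨l, hl, -, hprod⟩ := hZ
  let b : (Fin l.length × Bool) × Q → (ℤ → ℚ) := fun p j =>
    (if p.1.2 then (l.get p.1.1).1 else (l.get p.1.1).2).w j p.2
  let U : Submodule ℚ (ℤ → ℚ) := Submodule.span ℚ (Set.range b)
  have hU : ∀ a ∈ l, hSinD U a.1 ∧ hSinD U a.2 := by
    intro a ha
    obtain ⟨k, hk⟩ := List.get_of_mem ha
    constructor
    · intro s
      refine Submodule.subset_span ⟨((k, true), s), ?_⟩
      funext j
      simp only [b, if_true, hk]
    · intro s
      refine Submodule.subset_span ⟨((k, false), s), ?_⟩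
      funext j
      simp only [b, Bool.false_eq_true, if_false, hk]
  have hmem : ∀ i : ℤ, (fun j => Z.a i j) ∈ U := by
    intro i
    have h := (hSq_list i l hU).2
    rw [hprod] at h
    unfold hSq at h
    rwa [Submodule.mkQ_apply, Submodule.Quotient.mk_eq_zero] at h
  have hfin : Module.Finite ℚ U := Module.Finite.span_of_finite ℚ (Set.finite_range b)
  let M : Matrix (Fin R) (Fin R) ℚ := fun i j => Z.a (i : ℕ) (j : ℕ)
  have hM : M.det = c ^ R := by
    have ht : M.BlockTriangular id := by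
      intro i j hij
      refine htri _ _ (by positivity) ?_ ?_
      · have : (j : ℕ) < (i : ℕ) := hij
        exact_mod_cast this
      · exact_mod_cast i.2
    rw [Matrix.det_of_isUpperTriangular ht]
    have hd : ∀ i : Fin R, M i i = c := fun i =>
      hdiag ((i : ℕ) : ℤ) (by positivity) (by exact_mod_cast i.2)
    rw [Finset.prod_congr rfl (fun i _ => hd i)]
    simp
  have hunit : IsUnit M := by
    rw [Matrix.isUnit_iff_isUnit_det, hM]
    exact (isUnit_iff_ne_zero.2 (pow_ne_zero _ hc))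
  have hli : LinearIndependent ℚ M.row := Matrix.linearIndependent_rows_iff_isUnit.2 hunit
  let rest : (ℤ → ℚ) →ₗ[ℚ] (Fin R → ℚ) :=
    { toFun := fun v j => v ((j : ℕ) : ℤ)
      map_add' := fun _ _ => rfl
      map_smul' := fun _ _ => rfl }
  let v : Fin R → U := fun i => ⟨fun j => Z.a (i : ℕ) j, hmem _⟩
  have hv : LinearIndependent ℚ v := by
    refine LinearIndependent.of_comp (rest ∘ₗ U.subtype) ?_
    exact hli
  have h1 := hv.fintype_card_le_finrank
  rw [Fintype.card_fin] at h1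
  have h2 : Module.finrank ℚ U ≤ Fintype.card ((Fin l.length × Bool) × Q) := by
    have := finrank_range_le_card (R := ℚ) b
    exact this
  simp only [Fintype.card_prod, Fintype.card_fin, Fintype.card_bool] at h2
  have h3 : l.length * 2 * Fintype.card Q ≤ N * 2 * Fintype.card Q :=
    Nat.mul_le_mul_right _ (Nat.mul_le_mul_right _ hl)
  calc R ≤ l.length * 2 * Fintype.card Q := h1.trans h2
    _ ≤ N * 2 * Fintype.card Q := h3
    _ = 2 * Fintype.card Q * N := by ring


end Pool.Agent.Helper554.Schur
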