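import Pool.Agent.Helper554.Schur.Defs

set_option autoImplicit false
open Classical

namespace Pool.Agent.Helper554.Schur


theorem isSolvable_pi {ι E : Type} [Group E] (hE : Group.IsSolvable E) : Group.IsSolvable (ι → E) := by
  obtain ⟨n, hn⟩ := (Group.isSolvable_def E).1 hE
  have key : ∀ m : ℕ, ∀ f ∈ derivedSeries (ι → E) m, ∀ i, f i ∈ derivedSeries E m := by
    intro m f hf i
    have h1 := map_derivedSeries_le_derivedSeries (f := Pi.evalMonoidHom (fun _ : ι => E) i) m
    exact h1 (Subgroup.mem_map_of_mem _ hf)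
  refine (Group.isSolvable_def _).2 ⟨n, ?_⟩
  rw [eq_bot_iff]
  intro f hf
  rw [Subgroup.mem_bot]
  funext i
  have := key n f hf i
  rw [hn, Subgroup.mem_bot] at this
  exact this

/-- projection to `Q`. -/
noncomputable def HE.prπ {Q : Type} [Group Q] [Fintype Q] : HE Q →* Q where
  toFun g := g.π
  map_one' := rfl
  map_mul' _ _ := rfl

noncomputable def HE.prfw {Q : Type} [Group Q] [Fintype Q] :
    (HE.prπ (Q := Q)).ker →* Multiplicative ((ℤ → Q → ℚ) × (ℤ → Q → ℚ)) where
  toFun g := Multiplicative.ofAdd (g.1.f, g.1.w)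
  map_one' := rfl
  map_mul' g h := by
    have hg : g.1.π = 1 := g.2
    have hh : h.1.π = 1 := h.2
    apply Multiplicative.toAdd.injective
    refine Prod.ext ?_ ?_
    · funext i s
      simp [hh, add_comm]
    · funext i s
      simp [hg, add_comm]

theorem HE.isSolvable {Q : Type} [Group Q] [Fintype Q] (hQ : Group.IsSolvable Q) : Group.IsSolvable (HE Q) := by
  have h1 : Group.IsSolvable (HE.prfw (Q := Q)).ker := by
    refine Group.isSolvable_of_comm ?_
    rintro ⟨⟨g, hg⟩, hg'⟩ ⟨⟨h, hh⟩, hh'⟩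
    have e1 : g.π = 1 := hg
    have e2 : h.π = 1 := hh
    have e3 : (g.f, g.w) = ((fun _ _ => 0, fun _ _ => 0) : (ℤ → Q → ℚ) × (ℤ → Q → ℚ)) :=
      Multiplicative.ofAdd.injective hg'
    have e4 : (h.f, h.w) = ((fun _ _ => 0, fun _ _ => 0) : (ℤ → Q → ℚ) × (ℤ → Q → ℚ)) :=
      Multiplicative.ofAdd.injective hh'
    have gf : g.f = fun _ _ => 0 := congrArg Prod.fst e3
    have gw : g.w = fun _ _ => 0 := congrArg Prod.snd e3
    have hf : h.f = fun _ _ => 0 := congrArg Prod.fst e4
    have hw : h.w = fun _ _ => 0 := congrArg Prod.snd e4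
    apply Subtype.ext
    apply Subtype.ext
    show g * h = h * g
    apply HE.ext
    · simp [e1, e2]
    · funext i s; simp [gf, hf]
    · funext i s; simp [gw, hw]
    · funext i s; simp [gf, hf, add_comm]
  have h2 : Group.IsSolvable (HE.prπ (Q := Q)).ker := by
    haveI := h1
    exact Group.isSolvable_of_ker_le_range (HE.prfw (Q := Q)).ker.subtype (HE.prfw (Q := Q))
      (by rw [Subgroup.range_subtype])
  haveI := h2
  haveI := hQ
  exact Group.isSolvable_of_ker_le_range (HE.prπ (Q := Q)).ker.subtype (HE.prπ (Q := Q))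
      (by rw [Subgroup.range_subtype])


end Pool.Agent.Helper554.Schur
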