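import Pool.Agent.Helper554.Schur.Defs

set_option autoImplicit false
open Classical

namespace Pool.Agent.Helper554.Schur


theorem HE.iota_f {Q : Type} [Group Q] [Fintype Q] (q : Q) (j i : ℤ) (s : Q) (h : i ≠ j) :
    (HE.iota j q).f i s = 0 := by
  rw [HE.iota_apply]
  simp only [HE.mul_f, HE.inv_f, HE.uj, HE.dg, MonoidHom.coe_mk, OneHom.coe_mk]
  simp [h]

theorem HE.iota_w {Q : Type} [Group Q] [Fintype Q] (q : Q) (j i : ℤ) (s : Q) (h : i ≠ j) :
    (HE.iota j q).w i s = 0 := by
  rw [HE.iota_apply]
  simp only [HE.mul_w, HE.inv_w, HE.uj, HE.dg, MonoidHom.coe_mk, OneHom.coe_mk]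
  simp [h]

theorem HE.iota_a {Q : Type} [Group Q] [Fintype Q] (q : Q) (hq : q ≠ 1) (j i i' : ℤ) :
    (HE.iota j q).a i i' = if i = j ∧ i' = j then 1 else 0 := by
  rw [HE.iota_apply]
  simp only [HE.mul_a, HE.inv_a, HE.mul_f, HE.inv_w, HE.uj, HE.dg, MonoidHom.coe_mk, OneHom.coe_mk]
  have hs : ∀ s : Q, (q * s = 1 ∧ s = 1) ↔ False := by
    intro s
    constructor
    · rintro ⟨h1, h2⟩
      rw [h2, mul_one] at h1
      exact hq h1
    · exact False.elim
  by_cases h1 : i = j
  · by_cases h2 : i' = j
    · simp [h1, h2, hq]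
    · simp [h1, h2]
  · simp [h1]

theorem HE.Zp_spec {Q : Type} [Group Q] [Fintype Q] (q : Q) (hq : q ≠ 1) (R : ℕ) : ∀ i : ℤ,
    (∀ a b, (HE.Zp q i R).a a b ≠ 0 → i ≤ a ∧ a ≤ b ∧ b < i + R) ∧
    (∀ a, i ≤ a → a < i + R → (HE.Zp q i R).a a a = 1) ∧
    (∀ b s, (HE.Zp q i R).w b s ≠ 0 → i ≤ b ∧ b < i + R) := by
  induction R with
  | zero =>
    intro i
    refine ⟨?_, ?_, ?_⟩
    · intro a b h
      exact absurd rfl h
    · intro a h1 h2
      simp only [Nat.cast_zero, add_zero] at h2
      omega
    · intro b s h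
      exact absurd rfl h
  | succ R ih =>
    intro i
    obtain ⟨h1, h2, h3⟩ := ih (i + 1)
    have ha : ∀ a b, (HE.Zp q i (R + 1)).a a b = (HE.Zp q (i + 1) R).a a b +
        (∑ s, (HE.iota i q).f a s * (HE.Zp q (i + 1) R).w b s) + (HE.iota i q).a a b := by
      intro a b
      rfl
    have hw : ∀ b s, (HE.Zp q i (R + 1)).w b s =
        (HE.Zp q (i + 1) R).w b ((HE.iota i q).π⁻¹ * s) + (HE.iota i q).w b s := by
      intro b s
      rfl
    refine ⟨?_, ?_, ?_⟩
    · intro a b h
      push_cast
      rw [ha] at h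
      by_cases e1 : (HE.Zp q (i + 1) R).a a b = 0
      · by_cases e2 : (∑ s, (HE.iota i q).f a s * (HE.Zp q (i + 1) R).w b s) = 0
        · rw [e1, e2, HE.iota_a q hq] at h
          by_cases e3 : a = i ∧ b = i
          · omega
          · rw [if_neg e3] at h
            simp at h
        · obtain ⟨s, _, hs⟩ := Finset.exists_ne_zero_of_sum_ne_zero e2
          have hs1 := left_ne_zero_of_mul hs
          have hs2 := right_ne_zero_of_mul hs
          have e4 : a = i := by
            by_contra hne
            exact hs1 (HE.iota_f q i a s hne)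
          have := h3 b s hs2
          omega
      · have := h1 a b e1
        omega
    · intro a ha1 ha2
      push_cast at ha2
      rw [ha, HE.iota_a q hq]
      by_cases e : a = i
      · subst e
        have e1 : (HE.Zp q (a + 1) R).a a a = 0 := by
          by_contra hne
          have := h1 a a hne
          omega
        have e2 : ∀ s, (HE.Zp q (a + 1) R).w a s = 0 := by
          intro s
          by_contra hne
          have := h3 a s hne
          omega
        rw [e1, Finset.sum_eq_zero (fun s _ => by rw [e2 s, mul_zero])]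
        simp
      · rw [h2 a (by omega) (by omega), Finset.sum_eq_zero
          (fun s _ => by rw [HE.iota_f q i a s e, zero_mul])]
        simp [e]
    · intro b s h
      push_cast
      rw [hw] at h
      by_cases e1 : (HE.Zp q (i + 1) R).w b ((HE.iota i q).π⁻¹ * s) = 0
      · rw [e1, zero_add] at h
        have e2 : b = i := by
          by_contra hne
          exact h (HE.iota_w q i b s hne)
        omega
      · have := h3 b _ e1
        omega


end Pool.Agent.Helper554.Schur
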