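import Pool.Agent.Helper554.Schur.Moves
import Pool.Agent.Helper554.Schur.HESolv
import Pool.Agent.Helper554.Schur.HERank
import Pool.Agent.Helper554.Schur.HEZp
import Pool.Agent.Helper554.Schur.Ev

set_option autoImplicit false
open Classical

namespace Pool.Agent.Helper554.Schur


theorem J_eq {G : Type} [Group G] (f : FreeGroup (Fin 2) →* G) (w : FreeGroup (Fin 2)) :
    J (f (FreeGroup.of 0)) (f (FreeGroup.of 1)) w = f w := by
  have : J (f (FreeGroup.of 0)) (f (FreeGroup.of 1)) = f := by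
    apply FreeGroup.ext_hom
    intro i
    fin_cases i <;> simp [J]
  rw [this]

theorem comm_kill {G A : Type} [Group G] [CommGroup A] (f : G →* A) (g : G) (hg : g ∈ derivedSeries G 1) :
    f g = 1 := by
  have : derivedSeries G 1 ≤ f.ker := by
    rw [derivedSeries_one]
    exact Abelianization.commutator_subset_ker f
  exact this hg

theorem J_one_right {G : Type} [Group G] (g : G) (w : FreeGroup (Fin 2))
    (hw : w ∈ derivedSeries (FreeGroup (Fin 2)) 1) : J g 1 w = 1 := by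
  have h1 : J g 1 w = zpowersHom G g (J (Multiplicative.ofAdd (1 : ℤ)) 1 w) := by
    rw [map_J]; simp
  rw [h1, comm_kill _ _ hw, map_one]

theorem J_one_left {G : Type} [Group G] (g : G) (w : FreeGroup (Fin 2))
    (hw : w ∈ derivedSeries (FreeGroup (Fin 2)) 1) : J 1 g w = 1 := by
  have h1 : J 1 g w = zpowersHom G g (J 1 (Multiplicative.ofAdd (1 : ℤ)) w) := by
    rw [map_J]; simp
  rw [h1, comm_kill _ _ hw, map_one]

theorem PC.mem {G : Type} [Group G] {T : Subgroup G} {N : ℕ} {g : G} (hg : PC T N g) : g ∈ T := by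
  obtain ⟨l, _, h1, rfl⟩ := hg
  apply Subgroup.list_prod_mem
  intro a ha
  rw [List.mem_map] at ha
  obtain ⟨b, hb, rfl⟩ := ha
  exact T.mul_mem (T.mul_mem (T.mul_mem (h1 b hb).1 (h1 b hb).2) (T.inv_mem (h1 b hb).1))
    (T.inv_mem (h1 b hb).2)

theorem PC.map_sub {G E : Type} [Group G] [Group E] {T : Subgroup G} (f : T →* E) {N : ℕ} {g : T}
    (hg : PC T N (g : G)) : PC (⊤ : Subgroup E) N (f g) := by
  obtain ⟨l, hl, h1, h2⟩ := hg
  have key : ∀ l : List (G × G), (∀ a ∈ l, a.1 ∈ T ∧ a.2 ∈ T) → ∀ g : T,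
      (l.map fun a => a.1 * a.2 * a.1⁻¹ * a.2⁻¹).prod = (g : G) →
      ∃ l' : List (E × E), l'.length = l.length ∧
        (l'.map fun a => a.1 * a.2 * a.1⁻¹ * a.2⁻¹).prod = f g := by
    intro l
    induction l with
    | nil =>
      intro _ g hg
      have : g = 1 := by
        apply Subtype.ext; simpa using hg.symm
      exact ⟨[], rfl, by simp [this]⟩
    | cons a l ih =>
      intro h g hg
      have ha := h a (List.mem_cons_self)
      let a1 : T := ⟨a.1, ha.1⟩
      let a2 : T := ⟨a.2, ha.2⟩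
      obtain ⟨l', h3, h4⟩ := ih (fun b hb => h b (List.mem_cons_of_mem _ hb))
        ((a1 * a2 * a1⁻¹ * a2⁻¹)⁻¹ * g) (by
          rw [List.map_cons, List.prod_cons] at hg
          push_cast
          rw [← hg]
          simp [a1, a2, mul_assoc])
      refine ⟨(f a1, f a2) :: l', by simp [h3], ?_⟩
      rw [List.map_cons, List.prod_cons, h4, ← map_inv, ← map_inv, ← map_mul, ← map_mul, ← map_mul,
        ← map_mul]
      congr 1
      group
  obtain ⟨l', h3, h4⟩ := key l h1 g h2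
  exact ⟨l', by omega, by simp, h4⟩

theorem detect {α : Type} (x y : α) (hxy : y ≠ x) {Q : Type} [Group Q] [Fintype Q]
    (hQ : Group.IsSolvable Q) (r : FreeGroup (Fin 2) →* Q) (w : FreeGroup (Fin 2))
    (hw : w ∈ derivedSeries (FreeGroup (Fin 2)) 1) (hr : r w ≠ 1) :
    ∃ M C : ℕ, ∀ (R N : ℕ) (g d : FreeGroup α), PC (chi x).ker N g →
      d ∈ derivedSeries (FreeGroup α) M →
      tt (FreeGroup.of x) (J (FreeGroup.of y) (FreeGroup.of x * FreeGroup.of y * (FreeGroup.of x)⁻¹) w) (3 * R)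
        = g * d → R ≤ C * N := by
  set X := FreeGroup.of x with hX
  set Y := FreeGroup.of y with hY
  set h := J Y (X * Y * X⁻¹) w with hh
  obtain ⟨ev, M0, ev1, ev2, ev3⟩ := exists_ev x y hxy (HE.isSolvable hQ)
    (fun i => if i % 3 = 0 then HE.iota (i / 3) (r (FreeGroup.of 0)) else
      if i % 3 = 1 then HE.iota (i / 3) (r (FreeGroup.of 1)) else 1)
  refine ⟨M0 + 1, 2 * Fintype.card Q, ?_⟩
  have hYk : Y ∈ (chi x).ker := by
    rw [MonoidHom.mem_ker, hY, chi, FreeGroup.lift_apply_of, if_neg hxy]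
  have hconj : ∀ g ∈ (chi x).ker, X * g * X⁻¹ ∈ (chi x).ker := fun g hg =>
    (inferInstance : (chi x).ker.Normal).conj_mem g hg X
  let Y0 : (chi x).ker := ⟨Y, hYk⟩
  let Y1 : (chi x).ker := ⟨X * Y * X⁻¹, hconj _ hYk⟩
  let h' : (chi x).ker := J Y0 Y1 w
  have hh' : (h' : FreeGroup α) = h := by
    have := map_J Y0 Y1 (chi x).ker.subtype w
    simpa [h', hh] using this
  have evY0 : ∀ i, ev i Y0 = _ := fun i => ev2 i Y0 rfl
  have evY1 : ∀ i, ev i Y1 = _ := fun i => (ev1 i Y0 Y1 rfl).trans (ev2 (i + 1) Y0 rfl)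
  have evh0 : ∀ j : ℤ, ev (3 * j) h' = HE.iota j (r w) := by
    intro j
    have e1 : ev (3 * j) Y0 = HE.iota j (r (FreeGroup.of 0)) := by
      rw [evY0, if_pos (by omega)]; congr 2; omega
    have e2 : ev (3 * j) Y1 = HE.iota j (r (FreeGroup.of 1)) := by
      rw [evY1, if_neg (by omega), if_pos (by omega)]; congr 2; omega
    rw [map_J, e1, e2]
    exact J_eq ((HE.iota j).comp r) w
  have evh1 : ∀ j : ℤ, ev (3 * j + 1) h' = 1 := by
    intro j
    have e2 : ev (3 * j + 1) Y1 = 1 := by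
      rw [evY1, if_neg (by omega), if_neg (by omega)]
    rw [map_J, e2, J_one_right _ _ hw]
  have evh2 : ∀ j : ℤ, ev (3 * j + 1 + 1) h' = 1 := by
    intro j
    have e2 : ev (3 * j + 1 + 1) Y0 = 1 := by
      rw [evY0, if_neg (by omega), if_neg (by omega)]
    rw [map_J, e2, J_one_left _ _ hw]
  have hhk : h ∈ (chi x).ker := hh' ▸ h'.2
  have ttk : ∀ n, tt X h n ∈ (chi x).ker := by
    intro n
    induction n with
    | zero => exact (chi x).ker.one_mem
    | succ n ih => exact (chi x).ker.mul_mem ((chi x).ker.inv_mem hhk) (hconj _ ih)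
  let tk : ℕ → (chi x).ker := fun n => ⟨tt X h n, ttk n⟩
  have tks : ∀ n i, ev i (tk (n + 1)) = (ev i h')⁻¹ * ev (i + 1) (tk n) := by
    intro n i
    have : tk (n + 1) = h'⁻¹ * ⟨X * tt X h n * X⁻¹, hconj _ (ttk n)⟩ := by
      apply Subtype.ext
      simp [tk, tt, hh']
    rw [this, map_mul, map_inv, ev1 i (tk n) ⟨X * tt X h n * X⁻¹, hconj _ (ttk n)⟩ rfl]
  have hZ : ∀ R : ℕ, ∀ j : ℤ, ev (3 * j) (tk (3 * R)) = HE.Zp (r w)⁻¹ j R := by
    intro R
    induction R with
    | zero =>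
      intro j
      have : tk (3 * 0) = 1 := Subtype.ext rfl
      rw [this, map_one]; rfl
    | succ R ih =>
      intro j
      have e : 3 * (R + 1) = 3 * R + 1 + 1 + 1 := by ring
      rw [e, tks, tks, tks, evh0, evh1, evh2, inv_one, one_mul, one_mul]
      have e2 : (3 * j + 1 + 1 + 1 : ℤ) = 3 * (j + 1) := by ring
      rw [e2, ih, HE.Zp, map_inv]
  intro R N g d hg hd htt
  have hdk : d ∈ (chi x).ker := by
    rw [MonoidHom.mem_ker]
    exact comm_kill _ _ (derivedSeries_antitone _ (by omega) hd)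
  have hd0 : d ∈ derivedSeries (FreeGroup α) M0 := derivedSeries_antitone _ (by omega) hd
  let g' : (chi x).ker := ⟨g, hg.mem⟩
  let d' : (chi x).ker := ⟨d, hdk⟩
  have e1 : tk (3 * R) = g' * d' := Subtype.ext htt
  have e2 : ev 0 (tk (3 * R)) = ev 0 g' := by
    rw [e1, map_mul, ev3 0 d' hd0, mul_one]
  have e3 : ev 0 g' = HE.Zp (r w)⁻¹ 0 R := by
    rw [← e2]; simpa using hZ R 0
  have hPC : PC (⊤ : Subgroup (HE Q)) N (HE.Zp (r w)⁻¹ 0 R) := by
    rw [← e3]; exact PC.map_sub (ev 0) hg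
  obtain ⟨z1, z2, _⟩ := HE.Zp_spec (r w)⁻¹ (by simpa using hr) R 0
  refine HE.rank_bound 1 one_ne_zero R N _ hPC ?_ ?_
  · intro i j _ hji _
    by_contra hne
    have := z1 i j hne
    omega
  · intro i hi hiR
    exact z2 i hi (by simpa using hiR)


end Pool.Agent.Helper554.Schur
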