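import Mathlib

set_option autoImplicit false
open Classical

namespace Pool.Agent.Helper554.Schur

namespace WC

section S
variable {A : Type} [AddCommGroup A]

/-- oriented sum `∑_{0 ≤ k < n} f k` -/
def S (f : ℤ → A) : ℤ → A
  | Int.ofNat n => ∑ k ∈ Finset.range n, f k
  | Int.negSucc n => - ∑ k ∈ Finset.range (n + 1), f (-(k + 1 : ℤ))

lemma S_zero (f : ℤ → A) : S f 0 = 0 := by
  show S f (Int.ofNat 0) = 0
  simp [S]

lemma S_succ (f : ℤ → A) (n : ℤ) : S f (n + 1) = S f n + f n := by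
  cases n with
  | ofNat n =>
    have h : (Int.ofNat n + 1 : ℤ) = Int.ofNat (n + 1) := rfl
    rw [h]
    simp only [S, Finset.sum_range_succ]
    rfl
  | negSucc n =>
    cases n with
    | zero =>
      have h : (Int.negSucc 0 + 1 : ℤ) = Int.ofNat 0 := rfl
      rw [h]
      simp only [S]
      have h2 : (Int.negSucc 0 : ℤ) = -1 := rfl
      simp [h2]
    | succ n =>
      have h : (Int.negSucc (n + 1) + 1 : ℤ) = Int.negSucc n := by omega
      rw [h]
      simp only [S]
      rw [Finset.sum_range_succ _ (n + 1)]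
      have h2 : (Int.negSucc (n + 1) : ℤ) = -(((n + 1 : ℕ) : ℤ) + 1) := by omega
      rw [h2]
      abel

lemma S_add (f g : ℤ → A) (n : ℤ) : S (fun k => f k + g k) n = S f n + S g n := by
  cases n with
  | ofNat n => simp only [S, Finset.sum_add_distrib]
  | negSucc n => simp only [S, Finset.sum_add_distrib]; abel

lemma S_shift (f : ℤ → A) (m n : ℤ) : S (fun k => f (k + m)) n = S f (n + m) - S f m := by
  induction n using Int.induction_on with
  | zero => simp [S_zero]
  | succ n ih =>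
    rw [S_succ, ih, show ((n : ℤ) + 1 + m) = (n + m) + 1 by ring, S_succ]
    abel
  | pred n ih =>
    have h1 := S_succ (fun k => f (k + m)) (-(n : ℤ) - 1)
    have h2 := S_succ f (-(n : ℤ) - 1 + m)
    rw [show -(n : ℤ) - 1 + 1 = -n by ring] at h1
    rw [show -(n : ℤ) - 1 + m + 1 = -n + m by ring] at h2
    rw [ih, h2] at h1
    have h3 : S (fun k => f (k + m)) (-(n : ℤ) - 1)
      = (S f (-(n : ℤ) - 1 + m) + f (-(n : ℤ) - 1 + m) - S f m) - f (-(n : ℤ) - 1 + m) := by
      rw [h1]; abel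
    rw [h3]; abel

end S

variable {H : Type} [Group H] (χ : H →* Multiplicative ℤ) (x : H)

/-- the integer value of the character -/
def cc (h : H) : ℤ := Multiplicative.toAdd (χ h)

lemma cc_mul (a b : H) : cc χ (a * b) = cc χ a + cc χ b := by simp [cc]

lemma cc_ker (a : χ.ker) : cc χ (a : H) = 0 := by
  have := a.2
  rw [MonoidHom.mem_ker] at this
  simp [cc, this]

abbrev AA := Additive (Abelianization χ.ker)

variable {x}

lemma mem_aux (hx : χ x = Multiplicative.ofAdd 1) (k : ℤ) (h : H) :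
    x ^ k * h * (x ^ (k + cc χ h))⁻¹ ∈ χ.ker := by
  rw [MonoidHom.mem_ker]
  simp only [map_mul, map_zpow, map_inv, hx]
  apply Multiplicative.toAdd.injective
  simp [cc]

/-- Shapiro map -/
def kap (hx : χ x = Multiplicative.ofAdd 1) (k : ℤ) (h : H) : AA χ :=
  Additive.ofMul (Abelianization.of ⟨x ^ k * h * (x ^ (k + cc χ h))⁻¹, mem_aux χ hx k h⟩)

lemma kap_mul (hx : χ x = Multiplicative.ofAdd 1) (k : ℤ) (a b : H) :
    kap χ hx k (a * b) = kap χ hx k a + kap χ hx (k + cc χ a) b := by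
  simp only [kap]
  rw [← ofMul_mul, ← map_mul]
  congr 2
  ext
  simp only [Subgroup.coe_mul, cc_mul]
  group

lemma kap_zero (hx : χ x = Multiplicative.ofAdd 1) (τ : χ.ker) :
    kap χ hx 0 (τ : H) = Additive.ofMul (Abelianization.of τ) := by
  simp only [kap]
  congr 2
  ext
  simp [cc_ker]

/-- the 2-cocycle -/
def F (hx : χ x = Multiplicative.ofAdd 1) (a b : H) : AA χ := S (fun k => kap χ hx k b) (cc χ a)

lemma F_cocycle (hx : χ x = Multiplicative.ofAdd 1) (a b c : H) :
    F χ hx b c - F χ hx (a * b) c + F χ hx a (b * c) - F χ hx a b = 0 := by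
  have h : F χ hx a (b * c) = F χ hx a b + (F χ hx (a * b) c - F χ hx b c) := by
    simp only [F, kap_mul]
    rw [S_add, S_shift (fun k => kap χ hx k c), cc_mul]
  rw [h]; abel

lemma F_ker (hx : χ x = Multiplicative.ofAdd 1) (a b : H) (ha : cc χ a = 0) : F χ hx a b = 0 := by
  simp only [F, ha, S_zero]

lemma F_x (hx : χ x = Multiplicative.ofAdd 1) (τ : χ.ker) :
    F χ hx x (τ : H) = Additive.ofMul (Abelianization.of τ) := by
  have h1 : cc χ x = 0 + 1 := by simp [cc, hx]
  rw [F, h1, S_succ, S_zero, zero_add, kap_zero]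

open groupHomology in
/-- linear extension -/
noncomputable def Fl (hx : χ x = Multiplicative.ofAdd 1) :
    ((H × H) →₀ (Rep.trivial ℤ H ℤ)) →ₗ[ℤ] AA χ :=
  Finsupp.lsum ℤ (fun p => (LinearMap.toSpanSingleton ℤ (AA χ) (F χ hx p.1 p.2) : ℤ →ₗ[ℤ] AA χ))

lemma Fl_single (hx : χ x = Multiplicative.ofAdd 1) (p : H × H) (n : ℤ) :
    Fl χ hx (Finsupp.single p n) = n • F χ hx p.1 p.2 := by
  simp [Fl]

lemma Fl_d32 (hx : χ x = Multiplicative.ofAdd 1) (y : (H × H × H) →₀ (Rep.trivial ℤ H ℤ)) :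
    Fl χ hx (groupHomology.d₃₂ (Rep.trivial ℤ H ℤ) y) = 0 := by
  induction y using Finsupp.induction_linear with
  | zero => simp
  | add f g hf hg => rw [map_add, map_add, hf, hg, add_zero]
  | single p n =>
    rw [groupHomology.d₃₂_single, map_sub, map_add, map_sub]
    have e : ((Rep.trivial ℤ H ℤ).ρ p.1⁻¹ n : ℤ) = n := by simp
    erw [Fl_single, Fl_single, Fl_single, Fl_single, e]
    rw [← smul_sub, ← smul_add, ← smul_sub, F_cocycle, smul_zero]


abbrev RR (H : Type) [Group H] := Rep.trivial ℤ H ℤ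

lemma d21_single (a b : H) (n : ℤ) :
    groupHomology.d₂₁ (RR H) (Finsupp.single (a, b) (n : (RR H))) =
      (Finsupp.single b (n : (RR H)) - Finsupp.single (a * b) (n : (RR H)) + Finsupp.single a (n : (RR H)) : H →₀ (RR H)) := by
  rw [groupHomology.d₂₁_single]
  simp

/-- `u` bounds a chain killed by `F` -/
def PP (hx : χ x = Multiplicative.ofAdd 1) (u : H) : Prop :=
  ∃ w : (H × H) →₀ (RR H), Fl χ hx w = 0 ∧
    groupHomology.d₂₁ (RR H) w = (Finsupp.single u ((1 : ℤ) : (RR H)) : H →₀ (RR H))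

lemma Fl_ker (hx : χ x = Multiplicative.ofAdd 1) (a b : H) (ha : cc χ a = 0) :
    Fl χ hx (Finsupp.single (a, b) ((1 : ℤ) : (RR H))) = 0 := by
  erw [Fl_single]
  rw [F_ker χ hx a b ha, smul_zero]

lemma PP_one (hx : χ x = Multiplicative.ofAdd 1) : PP χ hx (1 : H) := by
  refine ⟨Finsupp.single (1, 1) ((1 : ℤ) : (RR H)), Fl_ker χ hx _ _ (by simp [cc]), ?_⟩
  rw [d21_single]
  simp

lemma PP_mul (hx : χ x = Multiplicative.ofAdd 1) {u v : H} (hu0 : cc χ u = 0) (hu : PP χ hx u)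
    (hv : PP χ hx v) : PP χ hx (u * v) := by
  obtain ⟨w1, h1, h2⟩ := hu
  obtain ⟨w2, h3, h4⟩ := hv
  refine ⟨w1 + w2 - Finsupp.single (u, v) ((1 : ℤ) : (RR H)), ?_, ?_⟩
  · rw [map_sub, map_add, h1, h3, Fl_ker χ hx _ _ hu0]; simp
  · rw [map_sub, map_add, h2, h4, d21_single]
    abel

lemma PP_inv (hx : χ x = Multiplicative.ofAdd 1) {u : H} (hu0 : cc χ u = 0) (hu : PP χ hx u) :
    PP χ hx u⁻¹ := by
  obtain ⟨w1, h1, h2⟩ := hu
  refine ⟨Finsupp.single (u, u⁻¹) ((1 : ℤ) : (RR H)) + Finsupp.single (1, 1) ((1 : ℤ) : (RR H)) - w1, ?_, ?_⟩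
  · rw [map_sub, map_add, h1, Fl_ker χ hx _ _ hu0, Fl_ker χ hx _ _ (by simp [cc])]; simp
  · rw [map_sub, map_add, h2, d21_single, d21_single, mul_inv_cancel, mul_one]
    abel

lemma PP_comm (hx : χ x = Multiplicative.ofAdd 1) {a b : H} (ha : cc χ a = 0) (hb : cc χ b = 0) :
    PP χ hx (a * b * a⁻¹ * b⁻¹) := by
  have hc : cc χ (a * b * a⁻¹ * b⁻¹) = 0 := by
    have h1 : χ a = 1 := ha
    have h2 : χ b = 1 := hb
    simp [cc, h1, h2]
  refine ⟨Finsupp.single (a * b * a⁻¹ * b⁻¹, b * a) ((1 : ℤ) : (RR H))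
    + Finsupp.single (b, a) ((1 : ℤ) : (RR H)) - Finsupp.single (a, b) ((1 : ℤ) : (RR H)), ?_, ?_⟩
  · rw [map_sub, map_add, Fl_ker χ hx _ _ hc, Fl_ker χ hx _ _ hb, Fl_ker χ hx _ _ ha]; simp
  · rw [map_sub, map_add, d21_single, d21_single, d21_single,
      show a * b * a⁻¹ * b⁻¹ * (b * a) = a * b by group]
    abel

lemma PP_commutator (hx : χ x = Multiplicative.ofAdd 1) (u : χ.ker) (hu : u ∈ commutator χ.ker) :
    PP χ hx (u : H) := by
  rw [commutator_eq_closure] at hu
  induction hu using Subgroup.closure_induction with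
  | mem y hy =>
    obtain ⟨a, b, rfl⟩ := hy
    have := PP_comm χ hx (cc_ker χ a) (cc_ker χ b)
    simpa [commutatorElement_def] using this
  | one => exact PP_one χ hx
  | mul a b _ _ ha hb => exact PP_mul χ hx (cc_ker χ a) ha hb
  | inv a _ ha => exact PP_inv χ hx (cc_ker χ a) ha

/-- the cycle attached to an invariant class -/
lemma exists_cycle (hx : χ x = Multiplicative.ofAdd 1) (τ u : χ.ker) (hu : u ∈ commutator χ.ker)
    (hux : (u : H) = x * τ * x⁻¹ * (τ : H)⁻¹) :
    ∃ z : groupHomology.cycles₂ (RR H), Fl χ hx z.1 = Additive.ofMul (Abelianization.of τ) := by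
  obtain ⟨w, hw1, hw2⟩ := PP_commutator χ hx u hu
  let z : (H × H) →₀ (RR H) := Finsupp.single (x, (τ : H)) ((1 : ℤ) : (RR H))
    - Finsupp.single ((τ : H), x) ((1 : ℤ) : (RR H))
    - Finsupp.single ((u : H), (τ : H) * x) ((1 : ℤ) : (RR H)) + w
  have hz : groupHomology.d₂₁ (RR H) z = 0 := by
    simp only [z]
    rw [map_add, map_sub, map_sub, hw2, d21_single, d21_single, d21_single,
      show (u : H) * ((τ : H) * x) = x * τ by rw [hux]; group]
    abel
  refine ⟨⟨z, hz⟩, ?_⟩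
  simp only [z]
  rw [map_add, map_sub, map_sub, hw1, Fl_ker χ hx _ _ (cc_ker χ τ), Fl_ker χ hx _ _ (cc_ker χ u)]
  erw [Fl_single]
  rw [F_x]
  simp

end WC

open WC in
/-- JOB A.  The Wang map `H_2(H;ℤ) → (ker χ)^{ab}` has countable image when `H_2` is countable. -/
theorem wang_countable {H : Type} [Group H] (χ : H →* Multiplicative ℤ) (x : H)
    (hx : χ x = Multiplicative.ofAdd 1)
    (hc : Countable (groupHomology (Rep.trivial ℤ H ℤ) 2)) :
    Set.Countable {a : Abelianization χ.ker |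
      ∃ (τ : χ.ker) (u : χ.ker), u ∈ commutator χ.ker ∧ (u : H) = x * τ * x⁻¹ * (τ : H)⁻¹ ∧
        Abelianization.of τ = a} := by
  have key : ∀ z z' : groupHomology.cycles₂ (RR H),
      groupHomology.H2π (RR H) z = groupHomology.H2π (RR H) z' → Fl χ hx z.1 = Fl χ hx z'.1 := by
    intro z z' h
    rw [groupHomology.H2π_eq_iff] at h
    obtain ⟨y, hy⟩ := h
    have h2 := Fl_d32 χ hx y
    have h3 : Fl χ hx (z.1 - z'.1) = 0 := by
      rw [← hy]; exact h2
    rw [map_sub] at h3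
    exact sub_eq_zero.mp h3
  let T : Set (Abelianization χ.ker) := {a : Abelianization χ.ker |
      ∃ (τ : χ.ker) (u : χ.ker), u ∈ commutator χ.ker ∧ (u : H) = x * τ * x⁻¹ * (τ : H)⁻¹ ∧
        Abelianization.of τ = a}
  have hex : ∀ a : T, ∃ z : groupHomology.cycles₂ (RR H), Fl χ hx z.1 = Additive.ofMul a.1 := by
    rintro ⟨a, τ, u, hu, hux, rfl⟩
    exact exists_cycle χ hx τ u hu hux
  choose z hz using hex
  have hinj : Function.Injective (fun a : T => groupHomology.H2π (RR H) (z a)) := by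
    intro a b hab
    have := key _ _ hab
    rw [hz, hz] at this
    exact Subtype.ext (Additive.ofMul.injective this)
  exact (Set.countable_coe_iff.mp (hinj.countable))



end Pool.Agent.Helper554.Schur
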