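import Pool.Agent.Helper554.Schur.Stage
import Pool.Agent.Helper554.Schur.Wang

set_option autoImplicit false
open Classical

namespace Pool.Agent.Helper554.Schur

/-! ### Congruences of tuples -/

/-- Two tuples agree modulo `N`. -/
def Cg {G : Type} [Group G] (N : Subgroup G) (s s' : Tup G) : Prop :=
  s.t⁻¹ * s'.t ∈ N ∧ s.k0⁻¹ * s'.k0 ∈ N ∧ s.k1⁻¹ * s'.k1 ∈ N ∧ s.p⁻¹ * s'.p ∈ N ∧ s.q⁻¹ * s'.q ∈ N

theorem Cg_iff {G : Type} [Group G] (N : Subgroup G) [N.Normal] (s s' : Tup G) :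
    Cg N s s' ↔ s.map (QuotientGroup.mk' N) = s'.map (QuotientGroup.mk' N) := by
  simp only [Cg, Tup.map, Tup.mk.injEq, QuotientGroup.mk'_apply, QuotientGroup.eq]

theorem Cg.mono {G : Type} [Group G] {N N' : Subgroup G} (h : N ≤ N') {s s' : Tup G} (hs : Cg N s s') :
    Cg N' s s' :=
  ⟨h hs.1, h hs.2.1, h hs.2.2.1, h hs.2.2.2.1, h hs.2.2.2.2⟩

theorem Cg.refl {G : Type} [Group G] (N : Subgroup G) (s : Tup G) : Cg N s s := by
  simp [Cg, N.one_mem]

theorem Cg.symm {G : Type} [Group G] {N : Subgroup G} [N.Normal] {s s' : Tup G} (h : Cg N s s') :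
    Cg N s' s := by
  rw [Cg_iff] at *; exact h.symm

theorem Cg.trans {G : Type} [Group G] {N : Subgroup G} [N.Normal] {s s' s'' : Tup G}
    (h : Cg N s s') (h' : Cg N s' s'') : Cg N s s'' := by
  rw [Cg_iff] at *; exact h.trans h'

theorem Cg.actL {G : Type} [Group G] {N : Subgroup G} [N.Normal] {s s' : Tup G} (h : Cg N s s')
    (x y0 y1 : G) (l : List Move) : Cg N (actL x y0 y1 l s) (actL x y0 y1 l s') := by
  rw [Cg_iff] at *
  rw [map_actL, map_actL, h]

theorem Cg_of_In {G : Type} [Group G] {N : Subgroup G} [N.Normal] {s : Tup G} (h : s.In N) :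
    Cg N s0 s := by
  simpa [Cg, s0, Tup.In] using h

section main
variable {α : Type} (x y : α) (ls : ℕ → List Move)

/-- The list of the first `n` stages selected by `ε`. -/
def pl (ε : ℕ → Bool) : ℕ → List Move
  | 0 => []
  | n + 1 => pl ε n ++ (if ε n then ls n else [])

noncomputable def sq (ε : ℕ → Bool) (n : ℕ) : Tup (FreeGroup α) :=
  actL (XX x) (Y0 y) (Y1 x y) (pl ls ε n) s0

variable (mm : ℕ → ℕ)

theorem sq_succ (hIn : ∀ n, (actL (XX x) (Y0 y) (Y1 x y) (ls n) (s0 : Tup (FreeGroup α))).In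
      (derivedSeries (FreeGroup α) (mm n))) (ε : ℕ → Bool) (n : ℕ) :
    Cg (derivedSeries (FreeGroup α) (mm n)) (sq x y ls ε n) (sq x y ls ε (n + 1)) := by
  rw [sq, sq, pl, actL_append]
  apply Cg.actL
  split_ifs
  · exact Cg_of_In (hIn n)
  · exact Cg.refl _ _

theorem sq_le (hIn : ∀ n, (actL (XX x) (Y0 y) (Y1 x y) (ls n) (s0 : Tup (FreeGroup α))).In
      (derivedSeries (FreeGroup α) (mm n))) (hmono : Monotone mm) (ε : ℕ → Bool) {k n : ℕ} (h : k ≤ n) :
    Cg (derivedSeries (FreeGroup α) (mm k)) (sq x y ls ε k) (sq x y ls ε n) := by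
  induction n, h using Nat.le_induction with
  | base => exact Cg.refl _ _
  | succ n hn ih =>
    exact ih.trans ((sq_succ x y ls mm hIn ε n).mono (derivedSeries_antitone _ (hmono hn)))

theorem ew_sq (ε : ℕ → Bool) (n : ℕ) : ew (XX x) (Y0 y) (Y1 x y) (sq x y ls ε n) = 1 := by
  rw [sq, ew_actL, ew_s0]

theorem Y0_mem (hxy : y ≠ x) : Y0 y ∈ (chi x).ker := by
  rw [MonoidHom.mem_ker, Y0, chi, FreeGroup.lift_apply_of, if_neg hxy]

theorem Y1_mem (hxy : y ≠ x) : Y1 x y ∈ (chi x).ker :=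
  (inferInstance : (chi x).ker.Normal).conj_mem _ (Y0_mem x y hxy) (XX x)

theorem sq_In (hxy : y ≠ x) (ε : ℕ → Bool) (n : ℕ) : (sq x y ls ε n).In (chi x).ker :=
  actL_In _ _ _ _ (Y0_mem x y hxy) (Y1_mem x y hxy) _ _ (s0_In _)

end main

/-! ### The inverse limit -/

section lim
variable {α : Type}

abbrev DD (α : Type) (n : ℕ) : Subgroup (FreeGroup α) := derivedSeries (FreeGroup α) n

variable (H : Subgroup ((n : ℕ) → FreeGroup α ⧸ derivedSeries (FreeGroup α) n))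
  (hH : (H : Set ((n : ℕ) → FreeGroup α ⧸ derivedSeries (FreeGroup α) n)) =
          {x | ∀ n : ℕ, ∃ g : FreeGroup α,
              x (n + 1) = (g : FreeGroup α ⧸ derivedSeries (FreeGroup α) (n + 1)) ∧
              x n = (g : FreeGroup α ⧸ derivedSeries (FreeGroup α) n)})

include hH in
theorem mem_H_iff (z : (n : ℕ) → FreeGroup α ⧸ derivedSeries (FreeGroup α) n) :
    z ∈ H ↔ ∀ n : ℕ, ∃ g : FreeGroup α,
              z (n + 1) = (g : FreeGroup α ⧸ derivedSeries (FreeGroup α) (n + 1)) ∧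
              z n = (g : FreeGroup α ⧸ derivedSeries (FreeGroup α) n) := by
  have : z ∈ (H : Set ((n : ℕ) → FreeGroup α ⧸ derivedSeries (FreeGroup α) n)) ↔ z ∈ H := Iff.rfl
  rw [← this, hH]; rfl

/-- The element of the limit attached to a coherent sequence. -/
def mkH (g : ℕ → FreeGroup α) (hg : ∀ n, (g n)⁻¹ * g (n + 1) ∈ derivedSeries (FreeGroup α) n) : H :=
  ⟨fun n => (g n : FreeGroup α ⧸ derivedSeries (FreeGroup α) n), by
    rw [mem_H_iff H hH]
    intro n
    exact ⟨g (n + 1), rfl, QuotientGroup.eq.2 (hg n)⟩⟩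

/-- The coordinate homomorphism. -/
def co (n : ℕ) : H →* FreeGroup α ⧸ derivedSeries (FreeGroup α) n :=
  (Pi.evalMonoidHom _ n).comp H.subtype

theorem co_mkH (g : ℕ → FreeGroup α) (hg : ∀ n, (g n)⁻¹ * g (n + 1) ∈ derivedSeries (FreeGroup α) n) (n : ℕ) :
    co H n (mkH H hH g hg) = (g n : FreeGroup α ⧸ derivedSeries (FreeGroup α) n) := rfl

theorem H_ext {a b : H} (h : ∀ n, co H n a = co H n b) : a = b :=
  Subtype.ext (funext h)

theorem chi_kill (x : α) (n : ℕ) (hn : 1 ≤ n) (g : FreeGroup α) (hg : g ∈ derivedSeries (FreeGroup α) n) :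
    chi x g = 1 :=
  comm_kill _ _ (derivedSeries_antitone _ hn hg)

/-- The degree on the limit. -/
noncomputable def chiH (x : α) : H →* Multiplicative ℤ :=
  (QuotientGroup.lift (derivedSeries (FreeGroup α) 1) (chi x) (fun g hg => chi_kill x 1 le_rfl g hg)).comp
    (co H 1)

include hH in
theorem chiH_rep (x : α) (a : H) (n : ℕ) (g : FreeGroup α)
    (hg : co H (n + 1) a = (g : FreeGroup α ⧸ derivedSeries (FreeGroup α) (n + 1))) : chiH H x a = chi x g := by
  induction n generalizing g with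
  | zero =>
    have h1 : chiH H x a = QuotientGroup.lift (derivedSeries (FreeGroup α) 1) (chi x)
      (fun g hg => chi_kill x 1 le_rfl g hg) (co H 1 a) := rfl
    have h2 : co H 1 a = (g : FreeGroup α ⧸ derivedSeries (FreeGroup α) 1) := hg
    rw [h1, h2]; rfl
  | succ n ih =>
    obtain ⟨g', h1, h2⟩ := (mem_H_iff H hH a.1).1 a.2 (n + 1)
    have h3 : (g' : FreeGroup α ⧸ derivedSeries (FreeGroup α) (n + 1 + 1)) = g := h1.symm.trans hg
    have h4 := QuotientGroup.eq.1 h3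
    have h5 := chi_kill x _ (by omega) _ h4
    rw [ih g' h2]
    rw [map_mul, map_inv, inv_mul_eq_one] at h5
    exact h5

include hH in
theorem PC_proj (x : α) (N : ℕ) (u : (chiH H x).ker) (hu : PC (⊤ : Subgroup (chiH H x).ker) N u) (n : ℕ) :
    ∃ g : FreeGroup α, PC (chi x).ker N g ∧
      co H (n + 1) (u : H) = (g : FreeGroup α ⧸ derivedSeries (FreeGroup α) (n + 1)) := by
  obtain ⟨l, hl, -, h2⟩ := hu
  have key : ∀ l : List ((chiH H x).ker × (chiH H x).ker), ∃ l' : List (FreeGroup α × FreeGroup α),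
      l'.length = l.length ∧ (∀ a ∈ l', a.1 ∈ (chi x).ker ∧ a.2 ∈ (chi x).ker) ∧
      co H (n + 1) (((l.map fun a => a.1 * a.2 * a.1⁻¹ * a.2⁻¹).prod : (chiH H x).ker) : H) =
        ((l'.map fun a => a.1 * a.2 * a.1⁻¹ * a.2⁻¹).prod : FreeGroup α) := by
    intro l
    induction l with
    | nil => exact ⟨[], rfl, by simp, map_one (co H (n + 1))⟩
    | cons a l ih =>
      obtain ⟨l', h3, h4, h5⟩ := ih
      obtain ⟨g1, hg1⟩ := QuotientGroup.mk_surjective (co H (n + 1) (a.1 : H))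
      obtain ⟨g2, hg2⟩ := QuotientGroup.mk_surjective (co H (n + 1) (a.2 : H))
      have m1 : g1 ∈ (chi x).ker := by
        rw [MonoidHom.mem_ker, ← chiH_rep H hH x _ n g1 hg1.symm]
        exact a.1.2
      have m2 : g2 ∈ (chi x).ker := by
        rw [MonoidHom.mem_ker, ← chiH_rep H hH x _ n g2 hg2.symm]
        exact a.2.2
      refine ⟨(g1, g2) :: l', by simp [h3], ?_, ?_⟩
      · intro b hb
        rcases List.mem_cons.1 hb with rfl | hb
        · exact ⟨m1, m2⟩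
        · exact h4 b hb
      · rw [List.map_cons, List.prod_cons, List.map_cons, List.prod_cons]
        rw [Subgroup.coe_mul, map_mul, h5]
        simp only [Subgroup.coe_mul, Subgroup.coe_inv, map_mul, map_inv, ← hg1, ← hg2]
        rfl
  obtain ⟨l', h3, h4, h5⟩ := key l
  exact ⟨_, ⟨l', by omega, h4, rfl⟩, by rw [← h5, h2]⟩

end lim

/-! ### The main theorem -/

section fin
variable {α : Type} (x y : α) (hxy : y ≠ x)
  (H : Subgroup ((n : ℕ) → FreeGroup α ⧸ derivedSeries (FreeGroup α) n))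
  (hH : (H : Set ((n : ℕ) → FreeGroup α ⧸ derivedSeries (FreeGroup α) n)) =
          {x | ∀ n : ℕ, ∃ g : FreeGroup α,
              x (n + 1) = (g : FreeGroup α ⧸ derivedSeries (FreeGroup α) (n + 1)) ∧
              x n = (g : FreeGroup α ⧸ derivedSeries (FreeGroup α) n)})
  (ls : ℕ → List Move) (mm : ℕ → ℕ)
  (hIn : ∀ n, (actL (XX x) (Y0 y) (Y1 x y) (ls n) (s0 : Tup (FreeGroup α))).In
      (derivedSeries (FreeGroup α) (mm n)))
  (hmm : ∀ n, n ≤ mm n)

include hIn hmm in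
theorem coh (ε : ℕ → Bool) (n : ℕ) :
    Cg (derivedSeries (FreeGroup α) n) (sq x y ls ε n) (sq x y ls ε (n + 1)) :=
  (sq_succ x y ls mm hIn ε n).mono (derivedSeries_antitone _ (hmm n))

/-- The limit tuple. -/
noncomputable def lim (ε : ℕ → Bool) : Tup H :=
  ⟨mkH H hH (fun n => (sq x y ls ε n).t) (fun n => (coh x y ls mm hIn hmm ε n).1),
   mkH H hH (fun n => (sq x y ls ε n).k0) (fun n => (coh x y ls mm hIn hmm ε n).2.1),
   mkH H hH (fun n => (sq x y ls ε n).k1) (fun n => (coh x y ls mm hIn hmm ε n).2.2.1),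
   mkH H hH (fun n => (sq x y ls ε n).p) (fun n => (coh x y ls mm hIn hmm ε n).2.2.2.1),
   mkH H hH (fun n => (sq x y ls ε n).q) (fun n => (coh x y ls mm hIn hmm ε n).2.2.2.2)⟩

/-- Constant sequences. -/
def cst (g : FreeGroup α) : H := mkH H hH (fun _ => g) (fun n => by simp)

theorem lim_map (ε : ℕ → Bool) (n : ℕ) :
    (lim x y H hH ls mm hIn hmm ε).map (co H n) =
      (sq x y ls ε n).map (QuotientGroup.mk' (derivedSeries (FreeGroup α) n)) := rfl

theorem lim_ew (ε : ℕ → Bool) :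
    ew (cst H hH (XX x)) (cst H hH (Y0 y)) (cst H hH (Y1 x y)) (lim x y H hH ls mm hIn hmm ε) = 1 := by
  apply H_ext H
  intro n
  have h1 : ∀ (s : Tup H) (a b c : H), co H n (ew a b c s) = ew (co H n a) (co H n b) (co H n c) (s.map (co H n)) := by
    intro s a b c
    simp only [ew, map_mul, map_cm, Tup.map]
  have h2 : ∀ (s : Tup (FreeGroup α)) (a b c : FreeGroup α),
      QuotientGroup.mk' (derivedSeries (FreeGroup α) n) (ew a b c s) =
      ew (QuotientGroup.mk' (derivedSeries (FreeGroup α) n) a) (QuotientGroup.mk' (derivedSeries (FreeGroup α) n) b)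
        (QuotientGroup.mk' (derivedSeries (FreeGroup α) n) c)
        (s.map (QuotientGroup.mk' (derivedSeries (FreeGroup α) n))) := by
    intro s a b c
    simp only [ew, map_mul, map_cm, Tup.map]
  rw [h1, lim_map]
  have h3 := h2 (sq x y ls ε n) (XX x) (Y0 y) (Y1 x y)
  rw [ew_sq, map_one] at h3
  rw [map_one]
  exact h3.symm

theorem mkH_mem_ker (g : ℕ → FreeGroup α) (hg : ∀ n, (g n)⁻¹ * g (n + 1) ∈ derivedSeries (FreeGroup α) n)
    (hk : ∀ n, g n ∈ (chi x).ker) : mkH H hH g hg ∈ (chiH H x).ker := by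
  rw [MonoidHom.mem_ker, chiH_rep H hH x _ 0 (g 1) rfl]
  exact hk 1

include hxy in
theorem lim_In (ε : ℕ → Bool) : (lim x y H hH ls mm hIn hmm ε).In (chiH H x).ker :=
  ⟨mkH_mem_ker x H hH _ (fun n => (coh x y ls mm hIn hmm ε n).1) (fun n => (sq_In x y ls hxy ε n).1),
   mkH_mem_ker x H hH _ (fun n => (coh x y ls mm hIn hmm ε n).2.1) (fun n => (sq_In x y ls hxy ε n).2.1),
   mkH_mem_ker x H hH _ (fun n => (coh x y ls mm hIn hmm ε n).2.2.1) (fun n => (sq_In x y ls hxy ε n).2.2.1),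
   mkH_mem_ker x H hH _ (fun n => (coh x y ls mm hIn hmm ε n).2.2.2.1)
    (fun n => (sq_In x y ls hxy ε n).2.2.2.1),
   mkH_mem_ker x H hH _ (fun n => (coh x y ls mm hIn hmm ε n).2.2.2.2)
    (fun n => (sq_In x y ls hxy ε n).2.2.2.2)⟩

/-- The element `τ̂ ∈ T`. -/
noncomputable def tau (ε : ℕ → Bool) : (chiH H x).ker :=
  ⟨(lim x y H hH ls mm hIn hmm ε).t, (lim_In x y hxy H hH ls mm hIn hmm ε).1⟩

theorem tau_rel (ε : ℕ → Bool) : ∃ u : (chiH H x).ker, u ∈ commutator (chiH H x).ker ∧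
    (u : H) = cst H hH (XX x) * (tau x y hxy H hH ls mm hIn hmm ε : H) * (cst H hH (XX x))⁻¹ *
      (tau x y hxy H hH ls mm hIn hmm ε : H)⁻¹ := by
  obtain ⟨h1, h2, h3, h4, h5⟩ := lim_In x y hxy H hH ls mm hIn hmm ε
  have hy0 : cst H hH (Y0 y) ∈ (chiH H x).ker := mkH_mem_ker x H hH _ _ (fun _ => Y0_mem x y hxy)
  have hy1 : cst H hH (Y1 x y) ∈ (chiH H x).ker := mkH_mem_ker x H hH _ _ (fun _ => Y1_mem x y hxy)
  have hcm : ∀ a b : (chiH H x).ker, cm a b ∈ commutator (chiH H x).ker := by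
    intro a b
    rw [cm, ← commutatorElement_def, commutator_def]
    exact Subgroup.commutator_mem_commutator (Subgroup.mem_top _) (Subgroup.mem_top _)
  refine ⟨(cm ⟨_, hy0⟩ ⟨_, h2⟩ * cm ⟨_, hy1⟩ ⟨_, h3⟩ * cm ⟨_, h4⟩ ⟨_, h5⟩)⁻¹,
    Subgroup.inv_mem _ (Subgroup.mul_mem _ (Subgroup.mul_mem _ (hcm _ _) (hcm _ _)) (hcm _ _)), ?_⟩
  have hew := lim_ew x y H hH ls mm hIn hmm ε
  rw [ew, mul_assoc, mul_assoc, ← mul_assoc (cm (cst H hH (Y0 y)) _), mul_eq_one_iff_eq_inv] at hew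
  show ((cm (cst H hH (Y0 y)) (lim x y H hH ls mm hIn hmm ε).k0 *
    cm (cst H hH (Y1 x y)) (lim x y H hH ls mm hIn hmm ε).k1 *
    cm (lim x y H hH ls mm hIn hmm ε).p (lim x y H hH ls mm hIn hmm ε).q)⁻¹ : H) = _
  rw [← hew]; rfl

theorem pl_count (ε : ℕ → Bool) (cnt : ℕ → ℕ) (h0 : cnt 0 = 0) (hc : ∀ n, cnt (n + 1) = cnt n + (ls n).count .R)
    (n : ℕ) : (pl ls ε n).count .R ≤ cnt n := by
  induction n with
  | zero => simp [pl, h0]
  | succ n ih =>
    rw [pl, List.count_append, hc]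
    split_ifs
    · omega
    · simp; omega

/-- The key separation: if the classes agree then the choices agree from some point on. -/
theorem separate (cnt : ℕ → ℕ) (h0 : cnt 0 = 0) (hc : ∀ n, cnt (n + 1) = cnt n + (ls n).count .R)
    (hmono : Monotone mm) (Mk : ℕ → ℕ) (hM : ∀ n, Mk n ≤ mm (n + 1))
    (hst : ∀ n, ∀ g, PC (chi x).ker (2 * cnt n + n) g → ∀ d ∈ derivedSeries (FreeGroup α) (Mk n),
      (actL (XX x) (Y0 y) (Y1 x y) (ls n) (s0 : Tup (FreeGroup α))).t ≠ g * d)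
    (ε ε' : ℕ → Bool) (hcl : Abelianization.of (tau x y hxy H hH ls mm hIn hmm ε) =
      Abelianization.of (tau x y hxy H hH ls mm hIn hmm ε')) : ∃ N, ∀ k ≥ N, ¬ (ε k = true ∧ ε' k = false) := by
  have h1 : (tau x y hxy H hH ls mm hIn hmm ε) * (tau x y hxy H hH ls mm hIn hmm ε')⁻¹ ∈
      commutator (chiH H x).ker := by
    rw [← Abelianization.ker_of, MonoidHom.mem_ker, map_mul, map_inv, hcl, mul_inv_cancel]
  rw [commutator_def] at h1
  obtain ⟨N, hN⟩ := PC.of_mem_commutator h1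
  refine ⟨N, fun k hk ⟨hε, hε'⟩ => ?_⟩
  obtain ⟨n, hn⟩ : ∃ n, mm (k + 1) = n + 1 := ⟨mm (k + 1) - 1, by have := hmm (k + 1); omega⟩
  obtain ⟨g, hg, hgeq⟩ := PC_proj H hH x N _ hN n
  rw [← hn] at hgeq
  -- coordinates
  have c1 : co H (mm (k + 1)) (tau x y hxy H hH ls mm hIn hmm ε : H) =
      ((sq x y ls ε (k + 1)).t : FreeGroup α ⧸ derivedSeries (FreeGroup α) (mm (k + 1))) := by
    show (((sq x y ls ε (mm (k + 1))).t : FreeGroup α) : FreeGroup α ⧸ derivedSeries (FreeGroup α) (mm (k + 1))) = _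
    exact (QuotientGroup.eq.2 (sq_le x y ls mm hIn hmono ε (hmm (k + 1))).1).symm
  have c2 : co H (mm (k + 1)) (tau x y hxy H hH ls mm hIn hmm ε' : H) =
      ((sq x y ls ε' (k + 1)).t : FreeGroup α ⧸ derivedSeries (FreeGroup α) (mm (k + 1))) := by
    show (((sq x y ls ε' (mm (k + 1))).t : FreeGroup α) : FreeGroup α ⧸ derivedSeries (FreeGroup α) (mm (k + 1))) = _
    exact (QuotientGroup.eq.2 (sq_le x y ls mm hIn hmono ε' (hmm (k + 1))).1).symm
  rw [Subgroup.coe_mul, Subgroup.coe_inv, map_mul, map_inv, c1, c2] at hgeq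
  have hgeq2 : (g : FreeGroup α ⧸ derivedSeries (FreeGroup α) (mm (k + 1))) =
      (((sq x y ls ε (k + 1)).t * ((sq x y ls ε' (k + 1)).t)⁻¹ : FreeGroup α) :
        FreeGroup α ⧸ derivedSeries (FreeGroup α) (mm (k + 1))) := hgeq.symm
  have hd := QuotientGroup.eq.1 hgeq2
  set d := g⁻¹ * ((sq x y ls ε (k + 1)).t * ((sq x y ls ε' (k + 1)).t)⁻¹) with hdd
  -- the two tuples
  obtain ⟨c, hcc, hct⟩ := actL_t (chi x).ker (XX x) (Y0 y) (Y1 x y) (Y0_mem x y hxy) (Y1_mem x y hxy)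
    (pl ls ε k) (actL (XX x) (Y0 y) (Y1 x y) (ls k) s0)
    (actL_In _ _ _ _ (Y0_mem x y hxy) (Y1_mem x y hxy) _ _ (s0_In _))
  obtain ⟨c', hcc', hct'⟩ := actL_t (chi x).ker (XX x) (Y0 y) (Y1 x y) (Y0_mem x y hxy) (Y1_mem x y hxy)
    (pl ls ε' k) s0 (s0_In _)
  have e1 : (sq x y ls ε (k + 1)).t = c * (actL (XX x) (Y0 y) (Y1 x y) (ls k) s0).t := by
    rw [sq, pl, hε, if_pos rfl, actL_append, hct]
  have e2 : (sq x y ls ε' (k + 1)).t = c' := by
    rw [sq, pl, hε', if_neg (by simp), List.append_nil, hct']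
    simp [s0]
  have hPC : PC (chi x).ker (2 * cnt k + k) (c⁻¹ * g * c') := by
    refine ((hcc.inv.mul hg).mul hcc').mono ?_
    have b1 := pl_count ls ε cnt h0 hc k
    have b2 := pl_count ls ε' cnt h0 hc k
    omega
  have hd2 : c'⁻¹ * d * c' ∈ derivedSeries (FreeGroup α) (Mk k) := by
    apply derivedSeries_antitone _ (hM k)
    have := (inferInstance : (derivedSeries (FreeGroup α) (mm (k + 1))).Normal).conj_mem d hd c'⁻¹
    simpa using this
  apply hst k _ hPC _ hd2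
  have e3 : (sq x y ls ε (k + 1)).t = g * d * (sq x y ls ε' (k + 1)).t := by
    rw [hdd]; group
  rw [e1, e2] at e3
  calc (actL (XX x) (Y0 y) (Y1 x y) (ls k) s0).t = c⁻¹ * (c * (actL (XX x) (Y0 y) (Y1 x y) (ls k) s0).t) := by group
    _ = c⁻¹ * (g * d * c') := by rw [e3]
    _ = c⁻¹ * g * c' * (c'⁻¹ * d * c') := by group

end fin

theorem bool_aux (a b : Bool) (h1 : ¬ (a = true ∧ b = false)) (h2 : ¬ (b = true ∧ a = false)) : a = b := by
  cases a <;> cases b <;> simp_all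

theorem main (α : Type) (hα : Nontrivial α)
    (H : Subgroup ((n : ℕ) → FreeGroup α ⧸ derivedSeries (FreeGroup α) n))
    (hH : (H : Set ((n : ℕ) → FreeGroup α ⧸ derivedSeries (FreeGroup α) n)) =
          {x | ∀ n : ℕ, ∃ g : FreeGroup α,
              x (n + 1) = (g : FreeGroup α ⧸ derivedSeries (FreeGroup α) (n + 1)) ∧
              x n = (g : FreeGroup α ⧸ derivedSeries (FreeGroup α) n)}) :
    ¬ Countable (groupHomology (Rep.trivial ℤ (↥H) ℤ) 2) := by
  intro hcount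
  obtain ⟨y, x, hxy⟩ := exists_pair_ne α
  choose l M hl1 hl2 using fun m L => stage x y hxy m L
  let st : ℕ → ℕ × ℕ := fun n => Nat.rec (0, 0)
    (fun k s => (max (s.1 + 1) (M s.1 (2 * s.2 + k)), s.2 + (l s.1 (2 * s.2 + k)).count .R)) n
  let mm : ℕ → ℕ := fun n => (st n).1
  let cnt : ℕ → ℕ := fun n => (st n).2
  let ls : ℕ → List Move := fun n => l (mm n) (2 * cnt n + n)
  let Mk : ℕ → ℕ := fun n => M (mm n) (2 * cnt n + n)
  have hmS : ∀ n, mm (n + 1) = max (mm n + 1) (Mk n) := fun n => rfl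
  have hcS : ∀ n, cnt (n + 1) = cnt n + (ls n).count .R := fun n => rfl
  have hm0 : mm 0 = 0 := rfl
  have hc0 : cnt 0 = 0 := rfl
  have hmm : ∀ n, n ≤ mm n := by
    intro n
    induction n with
    | zero => omega
    | succ n ih => rw [hmS]; omega
  have hmono : Monotone mm := monotone_nat_of_le_succ (fun n => by rw [hmS]; omega)
  have hM : ∀ n, Mk n ≤ mm (n + 1) := fun n => by rw [hmS]; omega
  have hIn : ∀ n, (actL (XX x) (Y0 y) (Y1 x y) (ls n) (s0 : Tup (FreeGroup α))).In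
      (derivedSeries (FreeGroup α) (mm n)) := fun n => hl1 _ _
  have hst : ∀ n, ∀ g, PC (chi x).ker (2 * cnt n + n) g → ∀ d ∈ derivedSeries (FreeGroup α) (Mk n),
      (actL (XX x) (Y0 y) (Y1 x y) (ls n) (s0 : Tup (FreeGroup α))).t ≠ g * d := fun n => hl2 _ _
  have hsep := fun ε ε' => separate x y hxy H hH ls mm hIn hmm cnt hc0 hcS hmono Mk hM hst ε ε'
  have hx : chiH H x (cst H hH (XX x)) = Multiplicative.ofAdd 1 := by
    rw [chiH_rep H hH x _ 0 (XX x) rfl, XX, chi, FreeGroup.lift_apply_of, if_pos rfl]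
  have hW := wang_countable (chiH H x) (cst H hH (XX x)) hx hcount
  let E : (ℕ → Bool) → (ℕ → Bool) := fun δ k => δ (Nat.unpair k).1
  have hE : ∀ δ i n, E δ (Nat.pair i n) = δ i := by
    intro δ i n
    show δ (Nat.unpair (Nat.pair i n)).1 = δ i
    rw [Nat.unpair_pair]
  have hinj : Function.Injective (fun δ : ℕ → Bool =>
      (⟨Abelianization.of (tau x y hxy H hH ls mm hIn hmm (E δ)), by
        obtain ⟨u, hu1, hu2⟩ := tau_rel x y hxy H hH ls mm hIn hmm (E δ)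
        exact ⟨_, u, hu1, hu2, rfl⟩⟩ : {a : Abelianization (chiH H x).ker |
      ∃ (τ : (chiH H x).ker) (u : (chiH H x).ker), u ∈ commutator (chiH H x).ker ∧
        (u : H) = cst H hH (XX x) * τ * (cst H hH (XX x))⁻¹ * (τ : H)⁻¹ ∧
        Abelianization.of τ = a})) := by
    intro δ δ' hδ
    have h1 : Abelianization.of (tau x y hxy H hH ls mm hIn hmm (E δ)) =
        Abelianization.of (tau x y hxy H hH ls mm hIn hmm (E δ')) := congrArg Subtype.val hδ
    obtain ⟨N, hN⟩ := hsep _ _ h1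
    obtain ⟨N', hN'⟩ := hsep _ _ h1.symm
    funext i
    have a1 := hN (Nat.pair i (max N N')) ((le_max_left _ _).trans (Nat.right_le_pair _ _))
    have a2 := hN' (Nat.pair i (max N N')) ((le_max_right _ _).trans (Nat.right_le_pair _ _))
    rw [hE, hE] at a1 a2
    exact bool_aux _ _ a1 a2
  have : Countable (ℕ → Bool) := by
    have := hW.to_subtype
    exact hinj.countable
  obtain ⟨f, hf⟩ := exists_surjective_nat (ℕ → Bool)
  obtain ⟨n, hn⟩ := hf (fun n => !(f n n))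
  have := congrFun hn n
  cases h : f n n <;> simp [h] at this

end Pool.Agent.Helper554.Schur
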