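import Pool.Agent.Helper554.Schur.Defs

set_option autoImplicit false
open Classical

namespace Pool.Agent.Helper554.Schur


@[ext] structure Tup (G : Type) where
  t : G
  k0 : G
  k1 : G
  p : G
  q : G

inductive Move
  | a0 | b0 | a1 | b1 | S | R
  deriving DecidableEq

section
variable {G : Type} [Group G]

def cm (a b : G) : G := a * b * a⁻¹ * b⁻¹

/-- The surface word. -/
def ew (x y0 y1 : G) (s : Tup G) : G :=
  cm x s.t * cm y0 s.k0 * cm y1 s.k1 * cm s.p s.q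

/-- One elementary move. -/
def act (x y0 y1 : G) : Move → Tup G → Tup G
  | .a1, s => { s with
      k1 := (s.p * s.q * s.p⁻¹)⁻¹ * s.k1
      p := (s.p * s.q * s.p⁻¹)⁻¹ * s.k1 * y1 * s.k1⁻¹ * s.p }
  | .b1, s => { s with
      k1 := s.k1 * y1⁻¹ * s.k1⁻¹ * (s.p * s.q * s.p⁻¹) * s.k1 * y1
      p := s.k1 * y1⁻¹ * s.k1⁻¹ * s.p }
  | .a0, s => { s with
      k0 := cm y1 s.k1 * (s.p * s.q * s.p⁻¹)⁻¹ * (cm y1 s.k1)⁻¹ * s.k0
      p := (s.p * s.q * s.p⁻¹)⁻¹ * (cm y1 s.k1)⁻¹ * s.k0 * y0 * s.k0⁻¹ * cm y1 s.k1 * s.p }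
  | .b0, s => { s with
      k0 := s.k0 * y0⁻¹ * s.k0⁻¹ * (cm y1 s.k1 * (s.p * s.q * s.p⁻¹) * (cm y1 s.k1)⁻¹) * s.k0 * y0
      p := (cm y1 s.k1)⁻¹ * s.k0 * y0⁻¹ * s.k0⁻¹ * cm y1 s.k1 * s.p }
  | .S, s => { s with
      p := s.p * s.q * s.p⁻¹
      q := s.p⁻¹ }
  | .R, s => { s with
      t := (cm y0 s.k0 * cm y1 s.k1) * (cm s.p s.q)⁻¹ * (cm y0 s.k0 * cm y1 s.k1)⁻¹ * s.t
      p := ((cm s.p s.q)⁻¹ * (cm y0 s.k0 * cm y1 s.k1)⁻¹ * s.t * x * s.t⁻¹ * (cm y0 s.k0 * cm y1 s.k1)) * s.p *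
        ((cm s.p s.q)⁻¹ * (cm y0 s.k0 * cm y1 s.k1)⁻¹ * s.t * x * s.t⁻¹ * (cm y0 s.k0 * cm y1 s.k1))⁻¹
      q := ((cm s.p s.q)⁻¹ * (cm y0 s.k0 * cm y1 s.k1)⁻¹ * s.t * x * s.t⁻¹ * (cm y0 s.k0 * cm y1 s.k1)) * s.q *
        ((cm s.p s.q)⁻¹ * (cm y0 s.k0 * cm y1 s.k1)⁻¹ * s.t * x * s.t⁻¹ * (cm y0 s.k0 * cm y1 s.k1))⁻¹ }

theorem ew_act (x y0 y1 : G) (m : Move) (s : Tup G) :
    ew x y0 y1 (act x y0 y1 m s) = ew x y0 y1 s := by
  cases m <;> simp only [ew, act, cm] <;> group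

/-- Moves indexed by a list, the head is applied last. -/
def actL (x y0 y1 : G) (l : List Move) (s : Tup G) : Tup G := l.foldr (act x y0 y1) s

@[simp] theorem actL_nil (x y0 y1 : G) (s : Tup G) : actL x y0 y1 [] s = s := rfl
@[simp] theorem actL_cons (x y0 y1 : G) (m : Move) (l : List Move) (s : Tup G) :
    actL x y0 y1 (m :: l) s = act x y0 y1 m (actL x y0 y1 l s) := rfl
theorem actL_append (x y0 y1 : G) (l l' : List Move) (s : Tup G) :
    actL x y0 y1 (l ++ l') s = actL x y0 y1 l (actL x y0 y1 l' s) := by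
  simp [actL]

theorem ew_actL (x y0 y1 : G) (l : List Move) (s : Tup G) :
    ew x y0 y1 (actL x y0 y1 l s) = ew x y0 y1 s := by
  induction l with
  | nil => rfl
  | cons m l ih => rw [actL_cons, ew_act, ih]

def s0 : Tup G := ⟨1, 1, 1, 1, 1⟩

theorem ew_s0 (x y0 y1 : G) : ew x y0 y1 (s0 : Tup G) = 1 := by
  simp [ew, s0, cm]

end

section
variable {G G' : Type} [Group G] [Group G']

def Tup.map (f : G →* G') (s : Tup G) : Tup G' := ⟨f s.t, f s.k0, f s.k1, f s.p, f s.q⟩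

theorem map_cm (f : G →* G') (a b : G) : f (cm a b) = cm (f a) (f b) := by simp [cm]

theorem map_act (f : G →* G') (x y0 y1 : G) (m : Move) (s : Tup G) :
    (act x y0 y1 m s).map f = act (f x) (f y0) (f y1) m (s.map f) := by
  cases m <;> simp [act, Tup.map, map_cm]

theorem map_actL (f : G →* G') (x y0 y1 : G) (l : List Move) (s : Tup G) :
    (actL x y0 y1 l s).map f = actL (f x) (f y0) (f y1) l (s.map f) := by
  induction l with
  | nil => rfl
  | cons m l ih => rw [actL_cons, map_act, ih, actL_cons]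

theorem map_s0 (f : G →* G') : (s0 : Tup G).map f = s0 := by
  simp [s0, Tup.map]

end


section PCs
variable {G G' : Type} [Group G] [Group G'] {T : Subgroup G}

theorem PC.one (T : Subgroup G) (N : ℕ) : PC T N 1 := ⟨[], by simp, by simp, by simp⟩

theorem PC.mono {N M : ℕ} (h : N ≤ M) {g : G} (hg : PC T N g) : PC T M g := by
  obtain ⟨l, hl, h1, h2⟩ := hg
  exact ⟨l, hl.trans h, h1, h2⟩

theorem PC.mul {N M : ℕ} {g h : G} (hg : PC T N g) (hh : PC T M h) : PC T (N + M) (g * h) := by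
  obtain ⟨l, hl, h1, h2⟩ := hg
  obtain ⟨l', hl', h1', h2'⟩ := hh
  refine ⟨l ++ l', by simp; omega, ?_, by simp [h2, h2']⟩
  intro a ha
  rcases List.mem_append.1 ha with h | h
  · exact h1 a h
  · exact h1' a h

theorem PC.inv {N : ℕ} {g : G} (hg : PC T N g) : PC T N g⁻¹ := by
  obtain ⟨l, hl, h1, h2⟩ := hg
  refine ⟨(l.map fun a => (a.2, a.1)).reverse, by simpa using hl, ?_, ?_⟩
  · intro a ha
    simp only [List.mem_reverse, List.mem_map] at ha
    obtain ⟨b, hb, rfl⟩ := ha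
    exact ⟨(h1 b hb).2, (h1 b hb).1⟩
  · rw [← h2, List.prod_inv_reverse, List.map_map, List.map_reverse, List.map_map]
    congr 2
    apply List.map_congr_left
    intro a _
    simp [mul_assoc]

theorem PC.comm {a b : G} (ha : a ∈ T) (hb : b ∈ T) : PC T 1 (a * b * a⁻¹ * b⁻¹) :=
  ⟨[(a, b)], by simp, by simp [ha, hb], by simp⟩

theorem PC.conj [T.Normal] {N : ℕ} {g : G} (hg : PC T N g) (c : G) : PC T N (c * g * c⁻¹) := by
  obtain ⟨l, hl, h1, h2⟩ := hg
  refine ⟨l.map fun a => (c * a.1 * c⁻¹, c * a.2 * c⁻¹), by simpa using hl, ?_, ?_⟩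
  · intro a ha
    simp only [List.mem_map] at ha
    obtain ⟨b, hb, rfl⟩ := ha
    exact ⟨‹T.Normal›.conj_mem _ (h1 b hb).1 c, ‹T.Normal›.conj_mem _ (h1 b hb).2 c⟩
  · rw [← h2]
    clear h2 hl h1
    induction l with
    | nil => simp
    | cons a l ih =>
      simp only [List.map_cons, List.prod_cons, ih]
      simp [mul_assoc]

theorem PC.of_mem_commutator {u : G} (hu : u ∈ ⁅T, T⁆) : ∃ N, PC T N u := by
  rw [Subgroup.commutator_def] at hu
  refine Subgroup.closure_induction (p := fun u _ => ∃ N, PC T N u) ?_ ⟨0, PC.one T 0⟩ ?_ ?_ hu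
  · rintro _ ⟨a, ha, b, hb, rfl⟩
    exact ⟨1, by simpa [commutatorElement_def] using PC.comm ha hb⟩
  · rintro g h _ _ ⟨N, hN⟩ ⟨M, hM⟩
    exact ⟨N + M, hN.mul hM⟩
  · rintro g _ ⟨N, hN⟩
    exact ⟨N, hN.inv⟩

end PCs

section track
variable {G : Type} [Group G] (T : Subgroup G)

def Tup.In (s : Tup G) : Prop := s.t ∈ T ∧ s.k0 ∈ T ∧ s.k1 ∈ T ∧ s.p ∈ T ∧ s.q ∈ T

theorem s0_In : (s0 : Tup G).In T := ⟨T.one_mem, T.one_mem, T.one_mem, T.one_mem, T.one_mem⟩

theorem act_In [hT : T.Normal] (x y0 y1 : G) (h0 : y0 ∈ T) (h1 : y1 ∈ T) (m : Move) (s : Tup G) (hs : s.In T) :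
    (act x y0 y1 m s).In T := by
  obtain ⟨h2, h3, h4, h5, h6⟩ := hs
  have key : ∀ f : G →* G ⧸ T, (∀ g, f g = (g : G ⧸ T)) →
      ((act x y0 y1 m s).map f) = (⟨1, 1, 1, 1, 1⟩ : Tup (G ⧸ T)) := by
    intro f hf
    rw [map_act]
    have e0 : f y0 = 1 := by rw [hf]; exact (QuotientGroup.eq_one_iff _).2 h0
    have e1 : f y1 = 1 := by rw [hf]; exact (QuotientGroup.eq_one_iff _).2 h1
    have e2 : s.map f = ⟨1, 1, 1, 1, 1⟩ := by
      simp only [Tup.map, Tup.mk.injEq, hf]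
      exact ⟨(QuotientGroup.eq_one_iff _).2 h2, (QuotientGroup.eq_one_iff _).2 h3,
        (QuotientGroup.eq_one_iff _).2 h4, (QuotientGroup.eq_one_iff _).2 h5,
        (QuotientGroup.eq_one_iff _).2 h6⟩
    rw [e0, e1, e2]
    cases m <;> simp [act, cm]
  have := key (QuotientGroup.mk' T) (fun g => rfl)
  simp only [Tup.map, Tup.mk.injEq, QuotientGroup.mk'_apply, QuotientGroup.eq_one_iff] at this
  exact this

theorem actL_In [hT : T.Normal] (x y0 y1 : G) (h0 : y0 ∈ T) (h1 : y1 ∈ T) (l : List Move) (s : Tup G)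
    (hs : s.In T) : (actL x y0 y1 l s).In T := by
  induction l with
  | nil => exact hs
  | cons m l ih => exact act_In T x y0 y1 h0 h1 m _ ih

theorem act_t [hT : T.Normal] (x y0 y1 : G) (m : Move) (s : Tup G) (hs : s.In T) :
    ∃ c, PC T (if m = .R then 1 else 0) c ∧ (act x y0 y1 m s).t = c * s.t := by
  obtain ⟨h2, h3, h4, h5, h6⟩ := hs
  cases m
  case R =>
    refine ⟨_, ?_, rfl⟩
    exact (PC.comm h5 h6).inv.conj _
  all_goals exact ⟨1, PC.one T _, by simp [act]⟩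

theorem actL_t [hT : T.Normal] (x y0 y1 : G) (h0 : y0 ∈ T) (h1 : y1 ∈ T) (l : List Move) (s : Tup G)
    (hs : s.In T) : ∃ c, PC T (l.count .R) c ∧ (actL x y0 y1 l s).t = c * s.t := by
  induction l with
  | nil => exact ⟨1, PC.one T _, by simp⟩
  | cons m l ih =>
    obtain ⟨c, hc, hc2⟩ := ih
    obtain ⟨c', hc', hc2'⟩ := act_t T x y0 y1 m _ (actL_In T x y0 y1 h0 h1 l s hs)
    refine ⟨c' * c, ?_, by rw [actL_cons, hc2', hc2, mul_assoc]⟩
    refine (hc'.mul hc).mono ?_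
    rw [List.count_cons]
    by_cases hm : m = .R
    · subst hm; simp [add_comm]
    · have : (m == Move.R) = false := by simpa using hm
      simp [hm]

end track

section push
variable {G : Type} [Group G] (x y0 y1 : G)

/-- The evaluation `FreeGroup (Fin 2) → G`. -/
def J : FreeGroup (Fin 2) →* G := FreeGroup.lift ![y0, y1]

def mv : Fin 2 × Bool → Move
  | (0, true) => .a0
  | (0, false) => .b0
  | (1, true) => .a1
  | (1, false) => .b1

def wl (w : FreeGroup (Fin 2)) : List Move := w.toWord.map mv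

theorem push_list (L : List (Fin 2 × Bool)) (p : G) :
    actL x y0 y1 (L.map mv) ⟨1, 1, 1, p, 1⟩ = ⟨1, 1, 1, J y0 y1 (FreeGroup.mk L) * p, 1⟩ := by
  induction L with
  | nil => simp [← FreeGroup.one_eq_mk]
  | cons a L ih =>
    have hmk : FreeGroup.mk (a :: L) = FreeGroup.mk [a] * FreeGroup.mk L := by
      rw [FreeGroup.mul_mk]; rfl
    rw [List.map_cons, actL_cons, ih, hmk, map_mul]
    obtain ⟨i, b⟩ := a
    fin_cases i <;> cases b <;> simp [mv, act, cm, J, FreeGroup.lift_mk, mul_assoc]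

theorem push_wl (w : FreeGroup (Fin 2)) (p : G) :
    actL x y0 y1 (wl w) ⟨1, 1, 1, p, 1⟩ = ⟨1, 1, 1, J y0 y1 w * p, 1⟩ := by
  rw [wl, push_list, FreeGroup.mk_toWord]

theorem push_tq (L : List (Fin 2 × Bool)) (s : Tup G) :
    (actL x y0 y1 (L.map mv) s).t = s.t ∧ (actL x y0 y1 (L.map mv) s).q = s.q := by
  induction L with
  | nil => simp
  | cons a L ih =>
    rw [List.map_cons, actL_cons]
    obtain ⟨i, b⟩ := a
    fin_cases i <;> cases b <;> simp [mv, act, ih.1, ih.2]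

/-- The stage list. -/
def stg (A B : FreeGroup (Fin 2)) (K : ℕ) : List Move :=
  List.replicate K .R ++ (wl A ++ (.S :: wl B))

theorem count_wl (w : FreeGroup (Fin 2)) : (wl w).count .R = 0 := by
  rw [List.count_eq_zero]
  intro h
  rw [wl, List.mem_map] at h
  obtain ⟨⟨i, b⟩, _, h⟩ := h
  fin_cases i <;> cases b <;> simp [mv] at h

theorem count_stg (A B : FreeGroup (Fin 2)) (K : ℕ) : (stg A B K).count .R = K := by
  simp [stg, List.count_append, count_wl]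

theorem map_J {G' : Type} [Group G'] (f : G →* G') (w : FreeGroup (Fin 2)) :
    f (J y0 y1 w) = J (f y0) (f y1) w := by
  have : (f.comp (J y0 y1)) = J (f y0) (f y1) := by
    apply FreeGroup.ext_hom
    intro i
    fin_cases i <;> simp [J]
  exact DFunLike.congr_fun this w

theorem actL_R_s0 (K : ℕ) : actL x y0 y1 (List.replicate K .R) (s0 : Tup G) = s0 := by
  induction K with
  | zero => rfl
  | succ K ih =>
    rw [List.replicate_succ, actL_cons, ih]
    simp [act, s0, cm]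

theorem stg_trivial (A B : FreeGroup (Fin 2)) (K : ℕ) (hA : J y0 y1 A = 1) (hB : J y0 y1 B = 1) :
    actL x y0 y1 (stg A B K) (s0 : Tup G) = s0 := by
  have h1 : actL x y0 y1 (wl B) (s0 : Tup G) = s0 := by
    rw [s0, push_wl, hB]; simp
  have h2 : act x y0 y1 .S (s0 : Tup G) = s0 := by simp [act, s0]
  have h3 : actL x y0 y1 (wl A) (s0 : Tup G) = s0 := by
    rw [s0, push_wl, hA]; simp
  rw [stg, actL_append, actL_append, actL_cons, h1, h2, h3, actL_R_s0]

theorem stg_In (N : Subgroup G) [N.Normal] (A B : FreeGroup (Fin 2)) (K : ℕ) (hA : J y0 y1 A ∈ N)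
    (hB : J y0 y1 B ∈ N) : (actL x y0 y1 (stg A B K) (s0 : Tup G)).In N := by
  have key : (actL x y0 y1 (stg A B K) (s0 : Tup G)).map (QuotientGroup.mk' N) = s0 := by
    rw [map_actL, map_s0]
    apply stg_trivial
    · rw [← map_J]; exact (QuotientGroup.eq_one_iff _).2 hA
    · rw [← map_J]; exact (QuotientGroup.eq_one_iff _).2 hB
  simp only [Tup.map, s0, Tup.mk.injEq, QuotientGroup.mk'_apply, QuotientGroup.eq_one_iff] at key
  exact key

/-- The tuple before the handle pushes. -/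
def pre (A B : FreeGroup (Fin 2)) : Tup G := actL x y0 y1 (wl A ++ (.S :: wl B)) s0

theorem pre_eq (A B : FreeGroup (Fin 2)) :
    pre x y0 y1 A B = actL x y0 y1 (wl A) ⟨1, 1, 1, 1, (J y0 y1 B)⁻¹⟩ := by
  rw [pre, actL_append, actL_cons]
  congr 1
  rw [s0, push_wl]
  simp [act]

theorem pre_t (A B : FreeGroup (Fin 2)) : (pre x y0 y1 A B).t = 1 := by
  rw [pre_eq, wl, (push_tq x y0 y1 _ _).1]

theorem pre_q (A B : FreeGroup (Fin 2)) : (pre x y0 y1 A B).q = (J y0 y1 B)⁻¹ := by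
  rw [pre_eq, wl, (push_tq x y0 y1 _ _).2]

theorem pre_p (A B : FreeGroup (Fin 2)) :
    ∃ n ∈ Subgroup.normalClosure ({J y0 y1 B} : Set G), (pre x y0 y1 A B).p = J y0 y1 A * n := by
  set N := Subgroup.normalClosure ({J y0 y1 B} : Set G)
  have hB : J y0 y1 B ∈ N := Subgroup.subset_normalClosure rfl
  have key : (pre x y0 y1 A B).map (QuotientGroup.mk' N) =
      ⟨1, 1, 1, QuotientGroup.mk' N (J y0 y1 A), 1⟩ := by
    rw [pre_eq, map_actL]
    have : (⟨1, 1, 1, 1, (J y0 y1 B)⁻¹⟩ : Tup G).map (QuotientGroup.mk' N) = ⟨1, 1, 1, 1, 1⟩ := by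
      simp only [Tup.map, map_one, Tup.mk.injEq, true_and]
      exact (QuotientGroup.eq_one_iff _).2 (N.inv_mem hB)
    rw [this, push_wl, map_J, mul_one]
  have h4 : (QuotientGroup.mk' N) (pre x y0 y1 A B).p = QuotientGroup.mk' N (J y0 y1 A) :=
    congrArg Tup.p key
  refine ⟨(J y0 y1 A)⁻¹ * (pre x y0 y1 A B).p, ?_, by group⟩
  exact QuotientGroup.eq.1 h4.symm

theorem ew_pre (A B : FreeGroup (Fin 2)) : ew x y0 y1 (pre x y0 y1 A B) = 1 := by
  rw [pre, ew_actL, ew_s0]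

theorem R_iter (s : Tup G) (ht : s.t = 1) (he : ew x y0 y1 s = 1) (K : ℕ) :
    (actL x y0 y1 (List.replicate K .R) s).t = tt x (cm s.p s.q) K ∧
    (actL x y0 y1 (List.replicate K .R) s).k0 = s.k0 ∧
    (actL x y0 y1 (List.replicate K .R) s).k1 = s.k1 := by
  induction K with
  | zero => simp [tt, ht]
  | succ K ih =>
    obtain ⟨i1, i2, i3⟩ := ih
    have hW : cm y0 s.k0 * cm y1 s.k1 = (cm s.p s.q)⁻¹ := by
      rw [ew, ht] at he
      rw [eq_inv_iff_mul_eq_one, ← he]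
      simp [cm]
    have he2 : ew x y0 y1 (actL x y0 y1 (List.replicate K .R) s) = 1 := by rw [ew_actL, he]
    rw [ew, i2, i3, i1] at he2
    rw [List.replicate_succ, actL_cons]
    refine ⟨?_, by simp [act, i2], by simp [act, i3]⟩
    simp only [act, i1, i2, i3, tt]
    have hpq : (cm (actL x y0 y1 (List.replicate K .R) s).p (actL x y0 y1 (List.replicate K .R) s).q)⁻¹ =
        cm x (tt x (cm s.p s.q) K) * (cm y0 s.k0 * cm y1 s.k1) := by
      rw [← mul_eq_one_iff_eq_inv.1 he2, mul_assoc]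
    rw [hpq, hW]
    simp only [cm]
    group

end push

end Pool.Agent.Helper554.Schur
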