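import Pool.Agent.Helper554.Schur.Defs

set_option autoImplicit false
open Classical

namespace Pool.Agent.Helper554.Schur


/-- congruence subgroup -/
noncomputable def Hk (k : ℕ) : Subgroup (Matrix.SpecialLinearGroup (Fin 2) ℤ) :=
  (Matrix.SpecialLinearGroup.map (Int.castRingHom (ZMod (2 ^ k)))).ker

theorem mem_Hk (k : ℕ) (A : Matrix.SpecialLinearGroup (Fin 2) ℤ) :
    A ∈ Hk k ↔ ∀ i j, (2 ^ k : ℤ) ∣ (A : Matrix (Fin 2) (Fin 2) ℤ) i j - (1 : Matrix (Fin 2) (Fin 2) ℤ) i j := by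
  unfold Hk
  rw [MonoidHom.mem_ker]
  constructor
  · intro h i j
    have h2 := congrArg (fun M : Matrix.SpecialLinearGroup (Fin 2) (ZMod (2 ^ k)) => (M : Matrix (Fin 2) (Fin 2) (ZMod (2 ^ k))) i j) h
    simp only [Matrix.SpecialLinearGroup.map_apply_coe, RingHom.mapMatrix_apply, Matrix.map_apply, Matrix.SpecialLinearGroup.coe_one] at h2
    have h3 : (((A : Matrix (Fin 2) (Fin 2) ℤ) i j - (1 : Matrix (Fin 2) (Fin 2) ℤ) i j : ℤ) : ZMod (2 ^ k)) = 0 := by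
      push_cast
      rw [sub_eq_zero]
      rw [show (((A : Matrix (Fin 2) (Fin 2) ℤ) i j : ℤ) : ZMod (2 ^ k)) = (1 : Matrix (Fin 2) (Fin 2) (ZMod (2 ^ k))) i j from h2]
      by_cases hij : i = j
      · subst hij; simp
      · simp [Matrix.one_apply_ne hij]
    have h4 := (ZMod.intCast_zmod_eq_zero_iff_dvd _ _).mp h3
    exact_mod_cast h4
  · intro h
    ext i j
    simp only [Matrix.SpecialLinearGroup.map_apply_coe, RingHom.mapMatrix_apply, Matrix.map_apply, Matrix.SpecialLinearGroup.coe_one]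
    have h4 : (((A : Matrix (Fin 2) (Fin 2) ℤ) i j - (1 : Matrix (Fin 2) (Fin 2) ℤ) i j : ℤ) : ZMod (2 ^ k)) = 0 := by
      apply (ZMod.intCast_zmod_eq_zero_iff_dvd _ _).mpr
      exact_mod_cast h i j
    push_cast at h4
    rw [sub_eq_zero] at h4
    change (((A : Matrix (Fin 2) (Fin 2) ℤ) i j : ℤ) : ZMod (2 ^ k)) = _
    rw [h4]
    by_cases hij : i = j
    · subst hij; simp
    · simp [Matrix.one_apply_ne hij]

theorem exists_of_mem (k : ℕ) (A : Matrix.SpecialLinearGroup (Fin 2) ℤ) (h : A ∈ Hk k) :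
    ∃ X : Matrix (Fin 2) (Fin 2) ℤ, (A : Matrix (Fin 2) (Fin 2) ℤ) = 1 + (2 ^ k : ℤ) • X := by
  have h2 := (mem_Hk k A).mp h
  choose f hf using h2
  refine ⟨Matrix.of f, ?_⟩
  ext i j
  simp only [Matrix.add_apply, Matrix.smul_apply, Matrix.of_apply, smul_eq_mul]
  linarith [hf i j]

theorem comm_mem (k : ℕ) (hk : 1 ≤ k) (A B : Matrix.SpecialLinearGroup (Fin 2) ℤ) (hA : A ∈ Hk k) (hB : B ∈ Hk k) :
    A * B * A⁻¹ * B⁻¹ ∈ Hk (k + 1) := by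
  rw [mem_Hk]
  intro i j
  obtain ⟨X, hX⟩ := exists_of_mem k A hA
  obtain ⟨Y, hY⟩ := exists_of_mem k B hB
  have hAi : (A : Matrix (Fin 2) (Fin 2) ℤ) * ((A⁻¹ : Matrix.SpecialLinearGroup (Fin 2) ℤ) : Matrix (Fin 2) (Fin 2) ℤ) = 1 := by
    rw [← Matrix.SpecialLinearGroup.coe_mul, mul_inv_cancel, Matrix.SpecialLinearGroup.coe_one]
  have hBi : (B : Matrix (Fin 2) (Fin 2) ℤ) * ((B⁻¹ : Matrix.SpecialLinearGroup (Fin 2) ℤ) : Matrix (Fin 2) (Fin 2) ℤ) = 1 := by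
    rw [← Matrix.SpecialLinearGroup.coe_mul, mul_inv_cancel, Matrix.SpecialLinearGroup.coe_one]
  have key : ((A * B * A⁻¹ * B⁻¹ : Matrix.SpecialLinearGroup (Fin 2) ℤ) : Matrix (Fin 2) (Fin 2) ℤ) - 1
      = (2 ^ (k + 1) : ℤ) • ((2 ^ (k - 1) : ℤ) • ((X * Y - Y * X) * ((A⁻¹ : Matrix.SpecialLinearGroup (Fin 2) ℤ) : Matrix (Fin 2) (Fin 2) ℤ) * ((B⁻¹ : Matrix.SpecialLinearGroup (Fin 2) ℤ) : Matrix (Fin 2) (Fin 2) ℤ))) := by
    rw [smul_smul]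
    have e : (2 ^ (k + 1) : ℤ) * 2 ^ (k - 1) = 2 ^ k * 2 ^ k := by
      rw [← pow_add, ← pow_add]; congr 1; omega
    rw [e]
    have h1 : (A : Matrix (Fin 2) (Fin 2) ℤ) * (B : Matrix (Fin 2) (Fin 2) ℤ) - (B : Matrix (Fin 2) (Fin 2) ℤ) * (A : Matrix (Fin 2) (Fin 2) ℤ) = ((2 : ℤ) ^ k * 2 ^ k) • (X * Y - Y * X) := by
      rw [hX, hY]
      simp only [add_mul, mul_add, one_mul, mul_one, Matrix.smul_mul, Matrix.mul_smul, smul_smul, smul_sub]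
      abel
    have h2 : (1 : Matrix (Fin 2) (Fin 2) ℤ) = (B : Matrix (Fin 2) (Fin 2) ℤ) * (A : Matrix (Fin 2) (Fin 2) ℤ) * ((A⁻¹ : Matrix.SpecialLinearGroup (Fin 2) ℤ) : Matrix (Fin 2) (Fin 2) ℤ) * ((B⁻¹ : Matrix.SpecialLinearGroup (Fin 2) ℤ) : Matrix (Fin 2) (Fin 2) ℤ) := by
      rw [Matrix.mul_assoc (B : Matrix (Fin 2) (Fin 2) ℤ), hAi, Matrix.mul_one, hBi]
    rw [show ((2 : ℤ) ^ k * 2 ^ k) • ((X * Y - Y * X) * ((A⁻¹ : Matrix.SpecialLinearGroup (Fin 2) ℤ) : Matrix (Fin 2) (Fin 2) ℤ) * ((B⁻¹ : Matrix.SpecialLinearGroup (Fin 2) ℤ) : Matrix (Fin 2) (Fin 2) ℤ)) = (((2 : ℤ) ^ k * 2 ^ k) • (X * Y - Y * X)) * ((A⁻¹ : Matrix.SpecialLinearGroup (Fin 2) ℤ) : Matrix (Fin 2) (Fin 2) ℤ) * ((B⁻¹ : Matrix.SpecialLinearGroup (Fin 2) ℤ) : Matrix (Fin 2) (Fin 2) ℤ) by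
      rw [Matrix.smul_mul, Matrix.smul_mul]]
    rw [← h1, sub_mul, sub_mul, ← h2]
    simp only [Matrix.SpecialLinearGroup.coe_mul]
  have := congrFun (congrFun key i) j
  rw [Matrix.sub_apply] at this
  rw [this, Matrix.smul_apply, smul_eq_mul]
  exact Dvd.intro _ rfl

theorem rho_mem_one (g : FreeGroup (Fin 2)) : rho g ∈ Hk 1 := by
  have : (⊤ : Subgroup (FreeGroup (Fin 2))) ≤ (Hk 1).comap rho := by
    rw [← FreeGroup.closure_range_of, Subgroup.closure_le]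
    rintro _ ⟨a, rfl⟩
    change rho (FreeGroup.of a) ∈ Hk 1
    rw [mem_Hk]
    intro i j
    unfold rho
    rw [FreeGroup.lift_apply_of]
    fin_cases a <;> fin_cases i <;> fin_cases j <;> simp
  exact this (Subgroup.mem_top g)

theorem derived_le (n : ℕ) : derivedSeries (FreeGroup (Fin 2)) n ≤ (Hk (n + 1)).comap rho := by
  induction n with
  | zero =>
    intro g _
    exact rho_mem_one g
  | succ n ih =>
    rw [derivedSeries_succ, Subgroup.commutator_le]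
    intro a ha b hb
    rw [Subgroup.mem_comap, commutatorElement_def, map_mul, map_mul, map_mul, map_inv, map_inv]
    exact comm_mem (n + 1) (by omega) _ _ (ih ha) (ih hb)

theorem rho_derived (n : ℕ) (g : FreeGroup (Fin 2)) (hg : g ∈ derivedSeries (FreeGroup (Fin 2)) n)
    (i j : Fin 2) : (2 ^ (n + 1) : ℤ) ∣ (rho g : Matrix (Fin 2) (Fin 2) ℤ) i j - (1 : Matrix (Fin 2) (Fin 2) ℤ) i j :=
  (mem_Hk (n + 1) (rho g)).mp (derived_le n hg) i j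


end Pool.Agent.Helper554.Schur
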