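import Pool.Agent.Helper554.Schur.SL1

set_option autoImplicit false
open Classical

namespace Pool.Agent.Helper554.Schur


theorem key_X_aux (H : Matrix (Fin 2) (Fin 2) ℤ)
    (hc : H * (!![1, 2; 0, 1] * H * !![1, -2; 0, 1]) = (!![1, 2; 0, 1] * H * !![1, -2; 0, 1]) * H) :
    H 1 0 = 0 ∧ H 0 0 = H 1 1 := by
  have e10 := congrFun (congrFun hc 1) 0
  have e01 := congrFun (congrFun hc 0) 1
  simp only [Matrix.mul_apply, Fin.sum_univ_two, Matrix.of_apply, Matrix.cons_val', Matrix.cons_val_zero,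
    Matrix.cons_val_one, Matrix.cons_val_fin_one] at e10 e01
  have h1 : H 1 0 = 0 := by
    have : H 1 0 * H 1 0 = 0 := by linarith
    simpa using this
  refine ⟨h1, ?_⟩
  rw [h1] at e01
  have h2 : (H 0 0 - H 1 1) * (H 0 0 - H 1 1) = 0 := by linarith
  have h3 : H 0 0 - H 1 1 = 0 := by simpa using h2
  linarith

theorem key_Y_aux (H : Matrix (Fin 2) (Fin 2) ℤ)
    (hc : H * (!![1, 0; 2, 1] * H * !![1, 0; -2, 1]) = (!![1, 0; 2, 1] * H * !![1, 0; -2, 1]) * H) :
    H 0 1 = 0 ∧ H 0 0 = H 1 1 := by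
  have e10 := congrFun (congrFun hc 1) 0
  have e01 := congrFun (congrFun hc 0) 1
  simp only [Matrix.mul_apply, Fin.sum_univ_two, Matrix.of_apply, Matrix.cons_val', Matrix.cons_val_zero,
    Matrix.cons_val_one, Matrix.cons_val_fin_one] at e10 e01
  have h1 : H 0 1 = 0 := by
    have : H 0 1 * H 0 1 = 0 := by linarith
    simpa using this
  refine ⟨h1, ?_⟩
  rw [h1] at e10
  have h2 : (H 0 0 - H 1 1) * (H 0 0 - H 1 1) = 0 := by linarith
  have h3 : H 0 0 - H 1 1 = 0 := by simpa using h2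
  linarith

theorem rho_of_zero : ((rho (FreeGroup.of 0) : Matrix.SpecialLinearGroup (Fin 2) ℤ) :
    Matrix (Fin 2) (Fin 2) ℤ) = !![1, 2; 0, 1] := by
  unfold rho
  rw [FreeGroup.lift_apply_of]
  rfl

theorem rho_of_one : ((rho (FreeGroup.of 1) : Matrix.SpecialLinearGroup (Fin 2) ℤ) :
    Matrix (Fin 2) (Fin 2) ℤ) = !![1, 0; 2, 1] := by
  unfold rho
  rw [FreeGroup.lift_apply_of]
  rfl

theorem rho_of_zero_inv : (((rho (FreeGroup.of 0))⁻¹ : Matrix.SpecialLinearGroup (Fin 2) ℤ) :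
    Matrix (Fin 2) (Fin 2) ℤ) = !![1, -2; 0, 1] := by
  rw [Matrix.SpecialLinearGroup.coe_inv, rho_of_zero, Matrix.adjugate_fin_two]
  simp

theorem rho_of_one_inv : (((rho (FreeGroup.of 1))⁻¹ : Matrix.SpecialLinearGroup (Fin 2) ℤ) :
    Matrix (Fin 2) (Fin 2) ℤ) = !![1, 0; -2, 1] := by
  rw [Matrix.SpecialLinearGroup.coe_inv, rho_of_one, Matrix.adjugate_fin_two]
  simp

open scoped commutatorElement in
theorem rho_noncomm (m : ℕ) : ∃ A₁ ∈ derivedSeries (FreeGroup (Fin 2)) m,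
    ∃ A₂ ∈ derivedSeries (FreeGroup (Fin 2)) m, rho A₁ * rho A₂ ≠ rho A₂ * rho A₁ := by
  induction m with
  | zero =>
    refine ⟨FreeGroup.of 0, by simp, FreeGroup.of 1, by simp, ?_⟩
    intro h
    have h1 := congrArg (fun M : Matrix.SpecialLinearGroup (Fin 2) ℤ =>
      (M : Matrix (Fin 2) (Fin 2) ℤ) 0 0) h
    simp only [Matrix.SpecialLinearGroup.coe_mul, rho_of_zero, rho_of_one] at h1
    simp [Matrix.mul_apply, Fin.sum_univ_two] at h1
  | succ m ih =>
    obtain ⟨A₁, hA₁, A₂, hA₂, hne⟩ := ih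
    by_contra hcon
    push Not at hcon
    set g : FreeGroup (Fin 2) := ⁅A₁, A₂⁆ with hg
    have hgm : g ∈ derivedSeries (FreeGroup (Fin 2)) (m + 1) := by
      rw [derivedSeries_succ]
      exact Subgroup.commutator_mem_commutator hA₁ hA₂
    have hN : (derivedSeries (FreeGroup (Fin 2)) (m + 1)).Normal := inferInstance
    have h0 := hcon g hgm _ (hN.conj_mem g hgm (FreeGroup.of 0))
    have h1 := hcon g hgm _ (hN.conj_mem g hgm (FreeGroup.of 1))
    rw [map_mul, map_mul, map_inv] at h0 h1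
    have h0' := congrArg (fun M : Matrix.SpecialLinearGroup (Fin 2) ℤ =>
      (M : Matrix (Fin 2) (Fin 2) ℤ)) h0
    have h1' := congrArg (fun M : Matrix.SpecialLinearGroup (Fin 2) ℤ =>
      (M : Matrix (Fin 2) (Fin 2) ℤ)) h1
    simp only [Matrix.SpecialLinearGroup.coe_mul, rho_of_zero, rho_of_one, rho_of_zero_inv,
      rho_of_one_inv] at h0' h1'
    obtain ⟨k1, k2⟩ := key_X_aux _ h0'
    obtain ⟨k3, -⟩ := key_Y_aux _ h1'
    have hdet := (rho g).2
    rw [Matrix.det_fin_two] at hdet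
    have hdet' : (rho g : Matrix (Fin 2) (Fin 2) ℤ) 0 0 * (rho g : Matrix (Fin 2) (Fin 2) ℤ) 0 0 = 1 := by
      rw [k1, k3, ← k2] at hdet
      linarith
    have hd := rho_derived (m + 1) g hgm 0 0
    have h4 : (4 : ℤ) ∣ (rho g : Matrix (Fin 2) (Fin 2) ℤ) 0 0 - 1 := by
      have : (4 : ℤ) ∣ 2 ^ (m + 1 + 1) := ⟨2 ^ m, by ring⟩
      simpa using this.trans hd
    have h5 : (rho g : Matrix (Fin 2) (Fin 2) ℤ) 0 0 = 1 := by
      rcases mul_self_eq_one_iff.1 hdet' with h | h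
      · exact h
      · rw [h] at h4
        norm_num at h4
    have h6 : rho g = 1 := by
      ext i j
      fin_cases i <;> fin_cases j
      · simpa using h5
      · simpa using k3
      · simpa using k1
      · simpa using k2.symm.trans h5
    apply hne
    rw [hg, map_commutatorElement, commutatorElement_eq_one_iff_mul_comm] at h6
    exact h6


end Pool.Agent.Helper554.Schur
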