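import Pool.Agent.Helper554.Schur.SL2

set_option autoImplicit false
open Classical

namespace Pool.Agent.Helper554.Schur



theorem j3056_ch (b : Matrix (Fin 2) (Fin 2) ℤ) (h : b.det = 1) :
    b * b = (b 0 0 + b 1 1) • b - 1 := by
  rw [Matrix.det_fin_two] at h
  ext i j
  fin_cases i <;> fin_cases j <;>
    simp [Matrix.mul_apply, Fin.sum_univ_two, Matrix.smul_apply, -zsmul_eq_mul]
  · linear_combination (-1) * h
  · ring
  · ring
  · linear_combination (-1) * h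

theorem j3056_seq (a b : Matrix (Fin 2) (Fin 2) ℤ) (h : b.det = 1)
    (Y : Matrix (Fin 2) (Fin 2) ℤ) (hY : b = 1 + (4 : ℤ) • Y) (j : ℕ) :
    (∃ Z : Matrix (Fin 2) (Fin 2) ℤ, b ^ (2 ^ j) = 1 + ((2 : ℤ) ^ (j + 2)) • Z) ∧
    (∃ w : ℤ, a * b ^ (2 ^ j) - b ^ (2 ^ j) * a = (2 ^ j * (2 * w + 1)) • (a * b - b * a)) := by
  induction j with
  | zero =>
    refine ⟨⟨Y, ?_⟩, ⟨0, ?_⟩⟩
    · rw [pow_zero, pow_one, hY]
      norm_num
    · rw [pow_zero, pow_one]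
      simp
  | succ j ih =>
    obtain ⟨⟨Z, hZ⟩, ⟨w, hw⟩⟩ := ih
    have hp : b ^ (2 ^ (j + 1)) = b ^ (2 ^ j) * b ^ (2 ^ j) := by
      rw [← pow_add]
      congr 1
      rw [pow_succ]
      ring
    refine ⟨⟨Z + ((2 : ℤ) ^ (j + 1)) • (Z * Z), ?_⟩, ?_⟩
    · rw [hp, hZ]
      simp only [add_mul, mul_add, one_mul, mul_one, smul_mul_assoc, mul_smul_comm, smul_smul,
        smul_add]
      have e1 : (2 : ℤ) ^ (j + 2) * 2 ^ (j + 2) = 2 ^ (j + 1 + 2) * 2 ^ (j + 1) := by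
        rw [← pow_add, ← pow_add]
        congr 1
        ring
      have e2 : (2 : ℤ) ^ (j + 1 + 2) = 2 ^ (j + 2) + 2 ^ (j + 2) := by
        rw [show j + 1 + 2 = (j + 2) + 1 by ring, pow_succ]
        ring
      rw [e1]
      have e3 : ((2 : ℤ) ^ (j + 1 + 2)) • Z = ((2 : ℤ) ^ (j + 2)) • Z + ((2 : ℤ) ^ (j + 2)) • Z := by
        rw [e2, add_smul]
      rw [e3]
      abel
    · have hdet : (b ^ (2 ^ j)).det = 1 := by
        rw [Matrix.det_pow, h, one_pow]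
      have hch := j3056_ch _ hdet
      set c := b ^ (2 ^ j) with hc
      have htr : c 0 0 + c 1 1 = 2 * (2 * (2 ^ j * (Z 0 0 + Z 1 1)) + 1) := by
        rw [hZ]
        simp [Matrix.add_apply, Matrix.smul_apply, -zsmul_eq_mul]
        ring
      refine ⟨w + (2 ^ j * (Z 0 0 + Z 1 1)) * (2 * w + 1), ?_⟩
      rw [hp, ← mul_assoc]
      have e4 : a * c * c - c * c * a = (c 0 0 + c 1 1) • (a * c - c * a) := by
        rw [mul_assoc, hch, mul_sub, sub_mul, mul_one, one_mul, mul_smul_comm, smul_mul_assoc,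
          smul_sub]
        abel
      rw [e4, hw, smul_smul, htr]
      congr 1
      ring

/-- reduction mod `2^K` -/
noncomputable def j3056_phi (K : ℕ) :
    FreeGroup (Fin 2) →* Matrix.SpecialLinearGroup (Fin 2) (ZMod (2 ^ K)) :=
  (Matrix.SpecialLinearGroup.map (Int.castRingHom (ZMod (2 ^ K)))).comp rho

theorem j3056_phi_apply (K : ℕ) (g : FreeGroup (Fin 2)) (i j : Fin 2) :
    (j3056_phi K g : Matrix (Fin 2) (Fin 2) (ZMod (2 ^ K))) i j =
      (((rho g : Matrix (Fin 2) (Fin 2) ℤ) i j : ℤ) : ZMod (2 ^ K)) := rfl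

theorem j3056_phi_one (K : ℕ) (g : FreeGroup (Fin 2)) :
    j3056_phi K g = 1 ↔ ∀ i j, (2 ^ K : ℤ) ∣ (rho g : Matrix (Fin 2) (Fin 2) ℤ) i j -
      (1 : Matrix (Fin 2) (Fin 2) ℤ) i j := by
  have key : ∀ i j, (j3056_phi K g : Matrix (Fin 2) (Fin 2) (ZMod (2 ^ K))) i j =
      (1 : Matrix (Fin 2) (Fin 2) (ZMod (2 ^ K))) i j ↔
      (2 ^ K : ℤ) ∣ (rho g : Matrix (Fin 2) (Fin 2) ℤ) i j -
      (1 : Matrix (Fin 2) (Fin 2) ℤ) i j := by
    intro i j
    have h1 : (1 : Matrix (Fin 2) (Fin 2) (ZMod (2 ^ K))) i j =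
        (((1 : Matrix (Fin 2) (Fin 2) ℤ) i j : ℤ) : ZMod (2 ^ K)) := by
      rw [Matrix.one_apply, Matrix.one_apply]
      split_ifs <;> simp
    rw [j3056_phi_apply, h1, ← sub_eq_zero, ← Int.cast_sub, ZMod.intCast_zmod_eq_zero_iff_dvd]
    push_cast
    rfl
  constructor
  · intro h i j
    rw [← key, h]
    rfl
  · intro h
    apply Matrix.SpecialLinearGroup.ext
    intro i j
    rw [(key i j).2 (h i j)]
    rfl

theorem j3056_fin (K : ℕ) : Finite (j3056_phi K).range := by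
  have : NeZero (2 ^ K) := ⟨by positivity⟩
  have : Finite (Matrix (Fin 2) (Fin 2) (ZMod (2 ^ K))) := Pi.finite
  have : Finite (Matrix.SpecialLinearGroup (Fin 2) (ZMod (2 ^ K))) := Subtype.finite
  exact Subtype.finite

theorem j3056_solv (K : ℕ) : Group.IsSolvable (j3056_phi K).range := by
  refine ⟨⟨K, ?_⟩⟩
  have h := map_derivedSeries_eq (f := (j3056_phi K).rangeRestrict)
    (MonoidHom.rangeRestrict_surjective _) K
  rw [← h, eq_bot_iff]
  rintro x ⟨g, hg, rfl⟩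
  rw [Subgroup.mem_bot]
  apply Subtype.ext
  change j3056_phi K g = 1
  rw [j3056_phi_one]
  intro i j
  exact (pow_dvd_pow 2 (Nat.le_succ K)).trans (rho_derived K g hg i j)

theorem j3056_lift (K : ℕ) (X : Matrix (Fin 2) (Fin 2) ℤ)
    (h : ∀ i j, (2 ^ K : ℤ) ∣ X i j - (1 : Matrix (Fin 2) (Fin 2) ℤ) i j) :
    ∃ Y : Matrix (Fin 2) (Fin 2) ℤ, X = 1 + ((2 : ℤ) ^ K) • Y := by
  choose Y hY using h
  refine ⟨Matrix.of Y, ?_⟩
  ext i j
  rw [Matrix.add_apply, Matrix.smul_apply, Matrix.of_apply, smul_eq_mul]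
  have := hY i j
  linarith

theorem j3056_comm {G : Type*} [Group G] (x y : G) (h : x * y⁻¹ * x⁻¹ * y = 1) :
    y * x = x * y := by
  calc y * x = x * (y * x⁻¹ * (x * y⁻¹ * x⁻¹ * y)) * x := by group
    _ = x * (y * x⁻¹ * 1) * x := by rw [h]
    _ = x * y := by group

theorem sl2_pick (m : ℕ) : ∃ A B : FreeGroup (Fin 2),
    A ∈ derivedSeries (FreeGroup (Fin 2)) m ∧ B ∈ derivedSeries (FreeGroup (Fin 2)) m ∧
    ∀ n ∈ Subgroup.normalClosure ({B} : Set (FreeGroup (Fin 2))),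
      ∃ (Q : Type) (_ : Group Q) (_ : Finite Q) (r : FreeGroup (Fin 2) →* Q),
        Group.IsSolvable Q ∧ r ((A * n) * B⁻¹ * (A * n)⁻¹ * B) ≠ 1 := by
  obtain ⟨A₁, hA₁, A₂, hA₂, hne⟩ := rho_noncomm (m + 1)
  have hanti := derivedSeries_antitone (G := FreeGroup (Fin 2)) (Nat.le_succ m)
  set a : Matrix (Fin 2) (Fin 2) ℤ := (rho A₁ : Matrix (Fin 2) (Fin 2) ℤ) with ha
  set b : Matrix (Fin 2) (Fin 2) ℤ := (rho A₂ : Matrix (Fin 2) (Fin 2) ℤ) with hb
  have hC : a * b - b * a ≠ 0 := by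
    intro h0
    apply hne
    apply Subtype.ext
    rw [Matrix.SpecialLinearGroup.coe_mul, Matrix.SpecialLinearGroup.coe_mul]
    exact sub_eq_zero.1 h0
  obtain ⟨i, j, hij⟩ : ∃ i j, (a * b - b * a) i j ≠ 0 := by
    by_contra hcon
    push Not at hcon
    exact hC (Matrix.ext hcon)
  set d := (a * b - b * a) i j with hd
  -- choose s with 2^s not dividing d
  obtain ⟨s, hs⟩ : ∃ s : ℕ, ¬ (2 ^ s : ℤ) ∣ d := by
    refine ⟨d.natAbs, fun h => ?_⟩
    have h1 : (2 ^ d.natAbs : ℤ).natAbs ∣ d.natAbs := Int.natAbs_dvd_natAbs.2 h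
    have h2 : (2 ^ d.natAbs : ℤ).natAbs = 2 ^ d.natAbs := by
      rw [Int.natAbs_pow]
      rfl
    rw [h2] at h1
    exact absurd (Nat.le_of_dvd (Int.natAbs_pos.2 hij) h1) (not_le.2 Nat.lt_two_pow_self)
  have hb4 : ∀ i j, (2 ^ 2 : ℤ) ∣ b i j - (1 : Matrix (Fin 2) (Fin 2) ℤ) i j := by
    intro i j
    exact (pow_dvd_pow 2 (by omega)).trans (rho_derived (m + 1) A₂ hA₂ i j)
  obtain ⟨Y, hY⟩ := j3056_lift 2 b hb4
  have hY4 : b = 1 + (4 : ℤ) • Y := by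
    rw [hY]
    norm_num
  have hdet : b.det = 1 := (rho A₂).2
  obtain ⟨⟨Z, hZ⟩, ⟨w, hw⟩⟩ := j3056_seq a b hdet Y hY4 s
  set B := A₂ ^ (2 ^ s) with hB
  have hrB : (rho B : Matrix (Fin 2) (Fin 2) ℤ) = b ^ (2 ^ s) := by
    rw [hB, map_pow, Matrix.SpecialLinearGroup.coe_pow]
  refine ⟨A₁, B, hanti hA₁, Subgroup.pow_mem _ (hanti hA₂) _, ?_⟩
  intro n hn
  have hn1 : j3056_phi (s + 2) n = 1 := by
    have hle : Subgroup.normalClosure ({B} : Set (FreeGroup (Fin 2))) ≤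
        (j3056_phi (s + 2)).ker := by
      apply Subgroup.normalClosure_le_normal
      rw [Set.singleton_subset_iff]
      change j3056_phi (s + 2) B = 1
      rw [j3056_phi_one]
      intro i j
      rw [hrB, hZ, Matrix.add_apply, Matrix.smul_apply, smul_eq_mul, add_sub_cancel_left]
      exact Dvd.intro _ rfl
    exact hle hn
  obtain ⟨N, hN⟩ := j3056_lift (s + 2) _ ((j3056_phi_one _ _).1 hn1)
  refine ⟨(j3056_phi (2 * s)).range, inferInstance, j3056_fin _, (j3056_phi (2 * s)).rangeRestrict,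
    j3056_solv _, ?_⟩
  intro h1
  have h2 : j3056_phi (2 * s) ((A₁ * n) * B⁻¹ * (A₁ * n)⁻¹ * B) = 1 := congrArg Subtype.val h1
  -- B (A n) = (A n) B
  have h3 : j3056_phi (2 * s) (B * (A₁ * n)) = j3056_phi (2 * s) ((A₁ * n) * B) := by
    rw [map_mul _ B, map_mul _ _ B]
    apply j3056_comm
    rw [← h2]
    simp only [map_mul, map_inv]
  have h4 : ∀ i j, (2 ^ (2 * s) : ℤ) ∣
      (b ^ (2 ^ s) * (a * (rho n : Matrix (Fin 2) (Fin 2) ℤ))) i j -
      (a * (rho n : Matrix (Fin 2) (Fin 2) ℤ) * b ^ (2 ^ s)) i j := by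
    intro i j
    have h5 : (j3056_phi (2 * s) (B * (A₁ * n)) : Matrix (Fin 2) (Fin 2) (ZMod (2 ^ (2 * s)))) i j =
      (j3056_phi (2 * s) ((A₁ * n) * B) : Matrix (Fin 2) (Fin 2) (ZMod (2 ^ (2 * s)))) i j := by
      rw [h3]
    rw [j3056_phi_apply, j3056_phi_apply] at h5
    simp only [map_mul, Matrix.SpecialLinearGroup.coe_mul, hrB] at h5
    have h6 := (ZMod.intCast_zmod_eq_zero_iff_dvd _ (2 ^ (2 * s))).1
      (by rw [Int.cast_sub]; exact sub_eq_zero.2 h5)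
    push_cast at h6
    exact h6
  choose W hW using h4
  have hW' : b ^ (2 ^ s) * (a * (rho n : Matrix (Fin 2) (Fin 2) ℤ)) -
      a * (rho n : Matrix (Fin 2) (Fin 2) ℤ) * b ^ (2 ^ s) =
      ((2 : ℤ) ^ (2 * s)) • (Matrix.of W) := by
    ext i j
    rw [Matrix.sub_apply, Matrix.smul_apply, Matrix.of_apply, smul_eq_mul]
    exact hW i j
  have hcomm : (rho n : Matrix (Fin 2) (Fin 2) ℤ) * b ^ (2 ^ s) -
      b ^ (2 ^ s) * (rho n : Matrix (Fin 2) (Fin 2) ℤ) =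
      ((2 : ℤ) ^ (2 * s)) • ((16 : ℤ) • (N * Z - Z * N)) := by
    rw [hN, hZ]
    simp only [add_mul, mul_add, one_mul, mul_one, smul_mul_assoc, mul_smul_comm, smul_add,
      smul_smul, smul_sub]
    have e1 : (2 : ℤ) ^ (s + 2) * 2 ^ (s + 2) = 2 ^ (2 * s) * 16 := by
      rw [two_mul, pow_add, pow_add]
      ring
    rw [e1]
    abel
  set R : Matrix (Fin 2) (Fin 2) ℤ := (rho n : Matrix (Fin 2) (Fin 2) ℤ) with hR
  set R' : Matrix (Fin 2) (Fin 2) ℤ := (rho n⁻¹ : Matrix (Fin 2) (Fin 2) ℤ) with hR'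
  have hRR : R * R' = 1 := by
    rw [hR, hR', ← Matrix.SpecialLinearGroup.coe_mul, ← map_mul, mul_inv_cancel, map_one]
    rfl
  set c := b ^ (2 ^ s) with hc
  have h7 : c * a - a * c = ((2 : ℤ) ^ (2 * s)) •
      ((Matrix.of W + a * ((16 : ℤ) • (N * Z - Z * N))) * R') := by
    have h8 : (c * a - a * c) * R = ((2 : ℤ) ^ (2 * s)) •
        (Matrix.of W + a * ((16 : ℤ) • (N * Z - Z * N))) := by
      rw [smul_add, ← mul_smul_comm, ← hW', ← hcomm]
      simp only [sub_mul, mul_sub, mul_assoc]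
      abel
    calc c * a - a * c = (c * a - a * c) * R * R' := by rw [mul_assoc, hRR, mul_one]
      _ = _ := by rw [h8, smul_mul_assoc]
  have h9 : (2 ^ s * (2 * w + 1)) * d = - (2 ^ (2 * s) *
      ((Matrix.of W + a * ((16 : ℤ) • (N * Z - Z * N))) * R') i j) := by
    have h10 := congrFun (congrFun hw i) j
    have h11 := congrFun (congrFun h7 i) j
    rw [Matrix.smul_apply, smul_eq_mul, Matrix.sub_apply] at h10 h11
    rw [← h11, hd, ← h10]
    ring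
  have h12 : (2 : ℤ) ^ s ∣ (2 * w + 1) * d := by
    refine ⟨-((Matrix.of W + a * ((16 : ℤ) • (N * Z - Z * N))) * R') i j, ?_⟩
    have h13 : (2 : ℤ) ^ s ≠ 0 := by positivity
    apply mul_left_cancel₀ h13
    rw [← mul_assoc, h9, two_mul, pow_add]
    ring
  have hcop : IsCoprime ((2 : ℤ) ^ s) (2 * w + 1) := by
    apply IsCoprime.pow_left
    exact ⟨-w, 1, by ring⟩
  exact hs (hcop.dvd_of_dvd_mul_left h12)


end Pool.Agent.Helper554.Schur
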