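import Pool.Agent.Helper554.Schur.Detect
import Pool.Agent.Helper554.Schur.SL3

set_option autoImplicit false
open Classical

namespace Pool.Agent.Helper554.Schur

theorem act_indep {G : Type} [Group G] (x x' y0 y1 : G) (m : Move) (hm : m ≠ .R) (s : Tup G) :
    act x y0 y1 m s = act x' y0 y1 m s := by
  cases m <;> first | rfl | exact absurd rfl hm

theorem actL_indep {G : Type} [Group G] (x x' y0 y1 : G) (l : List Move) (hl : l.count .R = 0) (s : Tup G) :
    actL x y0 y1 l s = actL x' y0 y1 l s := by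
  induction l with
  | nil => rfl
  | cons m l ih =>
    rw [List.count_eq_zero] at hl
    rw [List.mem_cons, not_or] at hl
    rw [actL_cons, actL_cons, ih (by rw [List.count_eq_zero]; exact hl.2), act_indep x x' y0 y1 m (Ne.symm hl.1)]

theorem pre_indep {G : Type} [Group G] (x x' y0 y1 : G) (A B : FreeGroup (Fin 2)) :
    pre x y0 y1 A B = pre x' y0 y1 A B := by
  apply actL_indep
  rw [List.count_append, count_wl, List.count_cons, count_wl]
  simp

theorem map_pre {G G' : Type} [Group G] [Group G'] (f : G →* G') (x y0 y1 : G) (A B : FreeGroup (Fin 2)) :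
    (pre x y0 y1 A B).map f = pre (f x) (f y0) (f y1) A B := by
  rw [pre, map_actL, map_s0]; rfl

theorem J_id (w : FreeGroup (Fin 2)) : J (FreeGroup.of 0 : FreeGroup (Fin 2)) (FreeGroup.of 1) w = w :=
  J_eq (MonoidHom.id _) w

section
variable {α : Type} (x y : α)

abbrev XX : FreeGroup α := FreeGroup.of x
abbrev Y0 : FreeGroup α := FreeGroup.of y
abbrev Y1 : FreeGroup α := FreeGroup.of x * FreeGroup.of y * (FreeGroup.of x)⁻¹

theorem stage (hxy : y ≠ x) (m L : ℕ) : ∃ (l : List Move) (M : ℕ),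
    (actL (XX x) (Y0 y) (Y1 x y) l (s0 : Tup (FreeGroup α))).In (derivedSeries (FreeGroup α) m) ∧
    ∀ g, PC (chi x).ker L g → ∀ d ∈ derivedSeries (FreeGroup α) M,
      (actL (XX x) (Y0 y) (Y1 x y) l (s0 : Tup (FreeGroup α))).t ≠ g * d := by
  obtain ⟨A, B, hA, hB, hpick⟩ := sl2_pick m
  -- the tuple in `FreeGroup (Fin 2)`
  obtain ⟨n, hn, hp⟩ := pre_p (1 : FreeGroup (Fin 2)) (FreeGroup.of 0) (FreeGroup.of 1) A B
  have hq := pre_q (1 : FreeGroup (Fin 2)) (FreeGroup.of 0) (FreeGroup.of 1) A B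
  rw [J_id] at hn hq
  rw [J_id] at hp
  obtain ⟨Q, iQ, fQ, r, hQ, hr⟩ := hpick n hn
  have := Fintype.ofFinite Q
  set w : FreeGroup (Fin 2) := (A * n) * B⁻¹ * (A * n)⁻¹ * B with hw
  have hwc : w = cm (pre (1 : FreeGroup (Fin 2)) (FreeGroup.of 0) (FreeGroup.of 1) A B).p
      (pre (1 : FreeGroup (Fin 2)) (FreeGroup.of 0) (FreeGroup.of 1) A B).q := by
    rw [hp, hq, cm, inv_inv]
  have hw1 : w ∈ derivedSeries (FreeGroup (Fin 2)) 1 := by
    rw [hwc, derivedSeries_one, cm, ← commutatorElement_def]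
    exact Subgroup.commutator_mem_commutator (Subgroup.mem_top _) (Subgroup.mem_top _)
  obtain ⟨M, C, hMC⟩ := detect x y hxy hQ r w hw1 hr
  refine ⟨stg A B (3 * (C * L + 1)), M, ?_, ?_⟩
  · have hJ : ∀ a ∈ derivedSeries (FreeGroup (Fin 2)) m,
        J (Y0 y) (Y1 x y) a ∈ derivedSeries (FreeGroup α) m := by
      intro a ha
      exact map_derivedSeries_le_derivedSeries (J (Y0 y) (Y1 x y)) m (Subgroup.mem_map_of_mem _ ha)
    exact stg_In _ _ _ _ A B _ (hJ A hA) (hJ B hB)
  · intro g hg d hd heq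
    have hs : (actL (XX x) (Y0 y) (Y1 x y) (stg A B (3 * (C * L + 1))) (s0 : Tup (FreeGroup α))).t
        = tt (XX x) (J (Y0 y) (Y1 x y) w) (3 * (C * L + 1)) := by
      rw [stg, actL_append]
      have h1 := (R_iter (XX x) (Y0 y) (Y1 x y) (pre (XX x) (Y0 y) (Y1 x y) A B) (pre_t _ _ _ _ _)
        (ew_pre _ _ _ _ _) (3 * (C * L + 1))).1
      rw [pre] at h1
      rw [h1]
      congr 1
      have h2 : pre (XX x) (Y0 y) (Y1 x y) A B =
          (pre (1 : FreeGroup (Fin 2)) (FreeGroup.of 0) (FreeGroup.of 1) A B).map (J (Y0 y) (Y1 x y)) := by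
        rw [map_pre, pre_indep (XX x) (J (Y0 y) (Y1 x y) 1)]
        congr 1
      rw [hwc, map_cm]
      show cm (pre (XX x) (Y0 y) (Y1 x y) A B).p (pre (XX x) (Y0 y) (Y1 x y) A B).q = _
      rw [h2]; rfl
    rw [hs] at heq
    have := hMC _ _ g d hg hd heq
    omega

end

end Pool.Agent.Helper554.Schur
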